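import Pool.Agent.W911.IB.Fov
import Pool.Agent.H620R2.Gauge.W

/-!
# A collapse of `PSPACE` to the hierarchy is not affected by sparse changes of the oracle
-/

set_option autoImplicit false

namespace Pool.Agent.W911.IB

open Pool.Agent.NPC Pool.Agent.H622R2
open Pool.Agent.H490R3.LH.EQAx
open Pool.Agent.H620R2.Gauge (Oracle Quant IsFP IsPH Alg SAlg IsPSPACE W_strs W_mem_strs
  W_length_of_mem W_card_strs)

/-! ### Predicates in the hierarchy -/

/-- predicates of five strings that are in the hierarchy -/
def PHG (A : Oracle) (G : List Bool → List Bool → List Bool → List Bool → List Bool → Prop) :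
    Prop :=
  ∀ hh xx cc₁ cc₂ tt : List Bool → List Bool, Poly hh → Poly xx → Poly cc₁ → Poly cc₂ →
    Poly tt → PHp A (fun z => G (hh z) (xx z) (cc₁ z) (cc₂ z) (tt z))

section

variable (G : List Bool → List Bool → List Bool → List Bool → List Bool → Prop) (M : SAlg)
  (p : Polynomial ℕ) (A : Oracle)

theorem ph_SS {xx cc₁ cc₂ : List Bool → List Bool} (h2 : Poly xx)
    (h3 : Poly cc₁) (h4 : Poly cc₂) :
    PHp A (fun z => stp M A (xx z) (p.eval (xx z).length) (cc₁ z) = cc₂ z) := by
  have h6 : Poly (fun z => bits (((xx z, []), (cc₁ z, cc₂ z), []) : Inp)) :=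
    poly_of_polyTime (polyTime_bits (Poly.pair (Poly.pair h2 (NPC.Poly.const _))
      (Poly.pair (Poly.pair h3 h4) (NPC.Poly.const _))))
  refine ((ph_step M p A).red h6).congr fun z => ?_
  rw [dT_bits]

/-- the test of the guess `h` -/
def Chk (h x : List Bool) : Prop :=
  ∀ c₁ : List Bool, c₁.length ≤ p.eval x.length → ∀ c₂ : List Bool, c₂.length ≤ p.eval x.length →
    (G h x c₁ c₂ [] ↔ stp M A x (p.eval x.length) c₁ = c₂) ∧
    ∀ t : List Bool, t.length ≤ p.eval x.length → (G h x c₁ c₂ (true :: t) ↔
      ∃ c : List Bool, c.length ≤ p.eval x.length ∧ G h x c₁ c t ∧ G h x c c₂ t)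

variable {G} in
theorem ph_Chk (hG : PHG A G) : PHp A (fun y => Chk G M p A (unpair y).1 (unpair y).2) := by
  have i1 : Poly (fun z : List Bool => (unpair z).1) := poly_u1
  have i2 : Poly (fun z : List Bool => (unpair z).2) := poly_u2
  have i22 : Poly (fun z : List Bool => (unpair (unpair z).2).2) := poly_u2.comp poly_u2
  have i222 : Poly (fun z : List Bool => (unpair (unpair (unpair z).2).2).2) := i22.comp poly_u2
  have i2222 : Poly (fun z : List Bool => (unpair (unpair (unpair (unpair z).2).2).2).2) :=
    i222.comp poly_u2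
  have i22222 : Poly (fun z : List Bool =>
      (unpair (unpair (unpair (unpair (unpair z).2).2).2).2).2) := i2222.comp poly_u2
  -- level 5: c, t, c₂, c₁, h, x
  have r5 := (hG _ _ _ _ _ (i1.comp i2222) i22222 (i1.comp i222) i1 (i1.comp i2)).and
    (hG _ _ _ _ _ (i1.comp i2222) i22222 i1 (i1.comp i22) (i1.comp i2))
  have r4 := r5.ex (μ := fun z => p.eval (unpair (unpair (unpair (unpair z).2).2).2).2.length)
    (UPoly.eval (UPoly.length i2222) p)
  have r4' := (hG _ _ _ _ _ (i1.comp i222) i2222 (i1.comp i22) (i1.comp i2)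
    (Poly.cons (NPC.Poly.const true) i1)).iff r4
  have r3 := r4'.all (μ := fun z => p.eval (unpair (unpair (unpair z).2).2).2.length)
    (UPoly.eval (UPoly.length i222) p)
  have r3' := ((hG _ _ _ _ _ (i1.comp i22) i222 (i1.comp i2) i1 (NPC.Poly.const [])).iff
    (ph_SS M p A i222 (i1.comp i2) i1)).and r3
  have r2 := r3'.all (μ := fun z => p.eval (unpair (unpair z).2).2.length)
    (UPoly.eval (UPoly.length i22) p)
  have r1 := r2.all (μ := fun z => p.eval (unpair z).2.length)
    (UPoly.eval (UPoly.length i2) p)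
  refine r1.congr fun y => ?_
  simp only [unpair1, unpair2]
  rfl

/-- the acceptance condition -/
def Acc (h x : List Bool) : Prop :=
  ∃ c : List Bool, c.length ≤ p.eval x.length ∧ M.act (pairBits x c) = [true, true] ∧
    G h x [] c (List.replicate (p.eval x.length + 1) true)

variable {G} in
theorem ph_Acc (hG : PHG A G) : PHp A (fun y => Acc G M p (unpair y).1 (unpair y).2) := by
  have i1 : Poly (fun z : List Bool => (unpair z).1) := poly_u1
  have i2 : Poly (fun z : List Bool => (unpair z).2) := poly_u2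
  have i22 : Poly (fun z : List Bool => (unpair (unpair z).2).2) := poly_u2.comp poly_u2
  have h1 := poly_of_polyTime M.act_poly
  have h2 : PHp A (fun z => decide (M.act (pairBits (unpair (unpair z).2).2 (unpair z).1) =
      [true, true]) = true) := PHp.of_poly
    (Poly.decide_eq (h1.comp (poly_pairBits i22 i1)) (NPC.Poly.const _))
  have hu : UPoly (fun z : List Bool => p.eval (unpair (unpair z).2).2.length + 1) :=
    UPoly.add (UPoly.eval (UPoly.length i22) p) (UPoly.const 1)
  have r1 := (h2.and (hG _ _ _ _ _ (i1.comp i2) i22 (NPC.Poly.const []) i1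
    (poly_ones hu))).ex (μ := fun z => p.eval (unpair z).2.length)
    (UPoly.eval (UPoly.length i2) p)
  refine r1.congr fun y => ?_
  simp only [unpair1, unpair2, decide_eq_true_eq]
  rfl

variable {G} in
theorem ph_All (hG : PHG A G) (Bd : Polynomial ℕ) : PHp A (fun x => ∃ h : List Bool,
    h.length ≤ Bd.eval x.length ∧ Chk G M p A h x ∧ Acc G M p h x) := by
  refine (((ph_Chk M p A hG).and (ph_Acc M p A hG)).ex
    (μ := fun x => Bd.eval x.length) (UPoly.eval (UPoly.length Poly.id) Bd)).congr fun y => ?_
  simp only [unpair1, unpair2]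

end

/-! ### Iterations -/

theorem iter_fix {α : Type} [DecidableEq α] (f : α → α) (S : Finset α)
    (hf : ∀ a ∈ S, f a ∈ S) {x s : α} (hx : x ∈ S) (hs : f s = s) {j : ℕ} (hj : f^[j] x = s)
    {n : ℕ} (hn : S.card ≤ n) : f^[n] x = s := by
  classical
  have hS : ∀ i, f^[i] x ∈ S := by
    intro i
    induction i with
    | zero => exact hx
    | succ i ih => rw [Function.iterate_succ_apply']; exact hf _ ih
  have hex : ∃ j, f^[j] x = s := ⟨j, hj⟩
  set j₀ := Nat.find hex with hj₀
  have h0 : f^[j₀] x = s := Nat.find_spec hex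
  have hle : j₀ ≤ S.card := by
    have h1 : (Finset.range j₀).card ≤ S.card := by
      refine Finset.card_le_card_of_injOn (fun i => f^[i] x) (fun i _ => hS i) ?_
      have key : ∀ i i', i < i' → i' < j₀ → f^[i] x ≠ f^[i'] x := by
        intro i i' h1 h2 h3
        have h4 : f^[j₀ - i' + i] x = s := by
          rw [Function.iterate_add_apply, h3, ← Function.iterate_add_apply]
          have : j₀ - i' + i' = j₀ := by omega
          rw [this, h0]
        exact Nat.find_min hex (show j₀ - i' + i < Nat.find hex by omega) h4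
      intro i hi i' hi' h
      rw [Finset.coe_range, Set.mem_Iio] at hi hi'
      rcases lt_trichotomy i i' with h5 | h5 | h5
      · exact absurd h (key i i' h5 hi')
      · exact h5
      · exact absurd h.symm (key i' i h5 hi)
    rwa [Finset.card_range] at h1
  have h2 : n = (n - j₀) + j₀ := by omega
  rw [h2, Function.iterate_add_apply, h0]
  exact Function.iterate_fixed hs _

theorem reach_iter {M : SAlg} {p : Polynomial ℕ} {A : Oracle} {x : List Bool}
    (hM : ∀ s, M.Reach A x s → s.length ≤ p.eval x.length) {s : List Bool}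
    (hs : M.Reach A x s) : ∃ j, (stp M A x (p.eval x.length))^[j] [] = s := by
  induction hs with
  | start => exact ⟨0, rfl⟩
  | @step s q hs hq ih =>
    obtain ⟨j, hj⟩ := ih
    refine ⟨j + 1, ?_⟩
    rw [Function.iterate_succ_apply', hj]
    have h1 := hM _ (SAlg.Reach.step hs hq)
    unfold stp stb qy
    rw [hq]
    simp only [List.head?_cons, if_true, List.tail_cons]
    rw [if_pos h1]

theorem final_iter {M : SAlg} {p : Polynomial ℕ} {A : Oracle} {x : List Bool}
    (hM : ∀ s, M.Reach A x s → s.length ≤ p.eval x.length) {s z : List Bool}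
    (hs : M.Reach A x s) (hz : M.act (pairBits x s) = true :: z) :
    (stp M A x (p.eval x.length))^[2 ^ (p.eval x.length + 1)] [] = s := by
  obtain ⟨j, hj⟩ := reach_iter hM hs
  refine iter_fix _ (W_strs (p.eval x.length)) ?_ (W_mem_strs (Nat.zero_le _)) ?_ hj
    (W_card_strs _)
  · intro a ha
    apply W_mem_strs
    have h1 := W_length_of_mem ha
    exact (length_stb M _ x _ a).trans (max_le h1 le_rfl)
  · unfold stp stb
    rw [hz]
    simp

/-- a guess that passes the test gives the right answers -/
theorem chk_sound {G : List Bool → List Bool → List Bool → List Bool → List Bool → Prop}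
    {M : SAlg} {p : Polynomial ℕ} {A : Oracle} {h x : List Bool} (hc : Chk G M p A h x) : ∀ e ≤ p.eval x.length + 1,
    ∀ c₁ : List Bool, c₁.length ≤ p.eval x.length → ∀ c₂ : List Bool,
      c₂.length ≤ p.eval x.length → (G h x c₁ c₂ (List.replicate e true) ↔
        (stp M A x (p.eval x.length))^[2 ^ e] c₁ = c₂) := by
  intro e
  induction e with
  | zero =>
    intro _ c₁ h1 c₂ h2
    exact (hc c₁ h1 c₂ h2).1
  | succ e ih =>
    intro he c₁ h1 c₂ h2
    have h3 := (hc c₁ h1 c₂ h2).2 (List.replicate e true) (by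
      rw [List.length_replicate]; omega)
    rw [List.replicate_succ, h3]
    have h4 : ((stp M A x (p.eval x.length))^[2 ^ e] c₁).length ≤ p.eval x.length :=
      (length_iter M A x _ c₁ _).trans (max_le h1 le_rfl)
    have h5 : 2 ^ (e + 1) = 2 ^ e + 2 ^ e := by rw [pow_succ]; ring
    rw [h5, Function.iterate_add_apply]
    constructor
    · rintro ⟨c, h6, h7, h8⟩
      rw [ih (by omega) c₁ h1 c h6] at h7
      rw [ih (by omega) c h6 c₂ h2] at h8
      rw [h7, h8]
    · intro h6
      exact ⟨_, h4, (ih (by omega) c₁ h1 _ h4).2 rfl, (ih (by omega) _ h4 c₂ h2).2 h6⟩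

theorem sound {G : List Bool → List Bool → List Bool → List Bool → List Bool → Prop}
    {M : SAlg} {p : Polynomial ℕ} {A : Oracle} {L : Set (List Bool)} {x : List Bool}
    (hM : (∀ s, M.Reach A x s → s.length ≤ p.eval x.length) ∧
      ∃ s z, M.Reach A x s ∧ M.act (pairBits x s) = true :: z ∧ (x ∈ L ↔ z = [true]))
    {h : List Bool} (hc : Chk G M p A h x) (ha : Acc G M p h x) : x ∈ L := by
  obtain ⟨h1, s, z, h2, h3, h4⟩ := hM
  obtain ⟨c, h5, h6, h7⟩ := ha
  rw [chk_sound hc _ le_rfl [] (Nat.zero_le _) c h5, final_iter h1 h2 h3] at h7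
  rw [← h7, h3] at h6
  rw [h4]
  simpa using h6

/-- The general principle: if for every input some short guess `h` answers the questions about
iterated steps, the language is in the hierarchy. -/
theorem core {G : List Bool → List Bool → List Bool → List Bool → List Bool → Prop}
    {M : SAlg} {p : Polynomial ℕ} {A : Oracle} {L : Set (List Bool)} (hG : PHG A G)
    (hM : ∀ x, (∀ s, M.Reach A x s → s.length ≤ p.eval x.length) ∧
      ∃ s z, M.Reach A x s ∧ M.act (pairBits x s) = true :: z ∧ (x ∈ L ↔ z = [true]))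
    (Bd : Polynomial ℕ) (hx : ∀ x, ∃ h : List Bool, h.length ≤ Bd.eval x.length ∧
      ∀ c₁ : List Bool, c₁.length ≤ p.eval x.length → ∀ c₂ : List Bool,
      c₂.length ≤ p.eval x.length → ∀ t : List Bool, t.length ≤ p.eval x.length + 1 →
      (G h x c₁ c₂ t ↔ (stp M A x (p.eval x.length))^[2 ^ t.length] c₁ = c₂)) : IsPH A L := by
  refine isPH_iff.2 ((ph_All M p A hG Bd).congr fun x => ⟨?_, ?_⟩)
  · rintro ⟨h, _, hc, ha⟩
    exact sound (hM x) hc ha
  · intro hxL
    obtain ⟨h, hh, key⟩ := hx x
    refine ⟨h, hh, ?_, ?_⟩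
    · intro c₁ h1 c₂ h2
      refine ⟨key c₁ h1 c₂ h2 [] (Nat.zero_le _), fun t ht => ?_⟩
      have h3 : ((stp M A x (p.eval x.length))^[2 ^ t.length] c₁).length ≤ p.eval x.length :=
        (length_iter M A x _ c₁ _).trans (max_le h1 le_rfl)
      rw [key c₁ h1 c₂ h2 (true :: t) (by rw [List.length_cons]; omega)]
      have h5 : 2 ^ (true :: t).length = 2 ^ t.length + 2 ^ t.length := by
        rw [List.length_cons, pow_succ]; ring
      rw [h5, Function.iterate_add_apply]
      constructor
      · intro h6
        exact ⟨_, h3, (key c₁ h1 _ h3 t (by omega)).2 rfl, (key _ h3 c₂ h2 t (by omega)).2 h6⟩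
      · rintro ⟨c, h6, h7, h8⟩
        rw [key c₁ h1 c h6 t (by omega)] at h7
        rw [key c h6 c₂ h2 t (by omega)] at h8
        rw [h7, h8]
    · obtain ⟨h1, s, z, h2, h3, h4⟩ := hM x
      rw [h4.1 hxL] at h3
      refine ⟨s, h1 s h2, h3, ?_⟩
      rw [key [] (Nat.zero_le _) s (h1 s h2) _ (by rw [List.length_replicate]),
        List.length_replicate]
      exact final_iter h1 h2 h3

/-! ### Corrections -/

open Classical in
/-- the strings of length at most `n` where the oracles differ -/
noncomputable def Dif (A B : Oracle) (n : ℕ) : Finset (List Bool) :=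
  (W_strs n).filter (fun w => A w ≠ B w)

/-- the two oracles differ on a sparse set only -/
def Few (A B : Oracle) : Prop := ∃ R : Polynomial ℕ, ∀ n, (Dif A B n).card ≤ R.eval n

theorem Few.symm {A B : Oracle} (h : Few A B) : Few B A := by
  obtain ⟨R, hR⟩ := h
  refine ⟨R, fun n => ?_⟩
  have : Dif B A n = Dif A B n := by
    unfold Dif
    congr 1
    funext w
    rw [eq_iff_iff]
    exact ⟨fun h h' => h h'.symm, fun h h' => h h'.symm⟩
  rw [this]
  exact hR n

/-- the list of corrections with the answers of `O` -/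
noncomputable def cor (O : Oracle) (D : Finset (List Bool)) : Cor :=
  D.toList.map (fun w => (w, O w))

theorem ovr_cor (O O' : Oracle) (D : Finset (List Bool)) (w : List Bool) :
    ovr O' (cor O D) w = if w ∈ D then O w else O' w := by
  have h1 : key (cor O D) w = true ↔ w ∈ D := by
    unfold key cor
    simp
  have h2 : w ∈ D → vl (cor O D) w = O w := by
    intro hw
    unfold vl cor
    rw [Bool.eq_iff_iff]
    simp [hw]
  unfold ovr
  by_cases hw : w ∈ D
  · rw [if_pos (h1.2 hw), if_pos hw, h2 hw]
  · rw [if_neg (fun h => hw (h1.1 h)), if_neg hw]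

theorem ovr_dif (A B : Oracle) (n : ℕ) {w : List Bool} (hw : w.length ≤ n) :
    ovr B (cor A (Dif A B n)) w = A w ∧ ovr A (cor B (Dif A B n)) w = B w := by
  rw [ovr_cor, ovr_cor]
  by_cases h : A w = B w
  · rw [h]
    simp
  · have h1 : w ∈ Dif A B n := by
      unfold Dif
      rw [Finset.mem_filter]
      exact ⟨W_mem_strs hw, h⟩
    rw [if_pos h1, if_pos h1]
    exact ⟨rfl, rfl⟩

theorem length_cor (A B O : Oracle) {R : Polynomial ℕ} (hR : ∀ n, (Dif A B n).card ≤ R.eval n)
    (n : ℕ) : (bits (cor O (Dif A B n))).length ≤ R.eval n * (4 * n + 6) + 1 := by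
  rw [bits_length]
  have h1 := sz_le_length_mul (cor O (Dif A B n)) (4 * n + 5) (by
    intro a ha
    unfold cor at ha
    rw [List.mem_map] at ha
    obtain ⟨w, hw, rfl⟩ := ha
    rw [Finset.mem_toList] at hw
    have h2 : w.length ≤ n := by
      unfold Dif at hw
      exact W_length_of_mem (Finset.mem_filter.1 hw).1
    have h3 := sz_listBool_le w
    have h4 := sz_bool_le (O w)
    rw [sz_pair]
    omega)
  have h5 : (cor O (Dif A B n)).length = (Dif A B n).card := by
    unfold cor
    rw [List.length_map, Finset.length_toList]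
  have h7 : 4 * n + 5 + 1 = 4 * n + 6 := by ring
  rw [h5, h7] at h1
  have h6 := Nat.mul_le_mul_right (4 * n + 6) (hR n)
  omega

end Pool.Agent.W911.IB
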