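import Pool.Agent.W911.IB.Lev

/-!
# The distribution of an oracle with independent bits
-/

set_option autoImplicit false

namespace Pool.Agent.W911.IB

open Finset MeasureTheory Pool.Agent.NPC H568R2 Pool.Agent.H676 Pool.Agent.H620R2.Gauge

/-- A coin which shows `true` with probability `t`. -/
noncomputable def coin (t : unitInterval) : Measure Bool :=
  ENNReal.ofReal (t : ℝ) • Measure.dirac true + ENNReal.ofReal (1 - (t : ℝ)) • Measure.dirac false

instance (t : unitInterval) : IsProbabilityMeasure (coin t) := ⟨by
  have h0 := t.2.1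
  have h1 := t.2.2
  simp only [coin, Measure.add_apply, Measure.smul_apply, measure_univ, smul_eq_mul, mul_one]
  rw [← ENNReal.ofReal_add h0 (by linarith)]
  norm_num⟩

/-- The distribution of an oracle for which membership of the strings is decided by independent
coin tosses: the string `w` is in the oracle with probability `p w`. -/
noncomputable def law (p : List Bool → unitInterval) : Measure Oracle :=
  Measure.infinitePi (fun w : List Bool => coin (p w))

instance (p : List Bool → unitInterval) : IsProbabilityMeasure (law p) :=
  inferInstanceAs (IsProbabilityMeasure (Measure.infinitePi (fun w : List Bool => coin (p w))))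

/-- the weights of the first bits -/
noncomputable def bt (p : List Bool → unitInterval) (N : ℕ) (i : Fin N) (b : Bool) : ℝ :=
  if b then (p (str i) : ℝ) else 1 - (p (str i) : ℝ)

theorem bt_nonneg (p : List Bool → unitInterval) (N : ℕ) (i : Fin N) (b : Bool) :
    0 ≤ bt p N i b := by
  have h0 := (p (str i)).2.1
  have h1 := (p (str i)).2.2
  unfold bt
  split_ifs
  · exact h0
  · linarith

theorem bt_sum (p : List Bool → unitInterval) (N : ℕ) (i : Fin N) : ∑ b, bt p N i b = 1 := by
  rw [Fintype.sum_bool]
  simp [bt]

theorem coin_singleton (t : unitInterval) (b : Bool) :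
    coin t {b} = ENNReal.ofReal (if b then (t : ℝ) else 1 - (t : ℝ)) := by
  cases b <;> simp [coin]

theorem law_point (p : List Bool → unitInterval) (N : ℕ) (a : Fin N → Bool) :
    law p {A | pre N A = a} = ENNReal.ofReal (∏ i, bt p N i (a i)) := by
  classical
  set s : Finset (List Bool) := (univ : Finset (Fin N)).image (fun i : Fin N => str i) with hs
  set t : List Bool → Set Bool := fun y => {if h : idx y < N then a ⟨idx y, h⟩ else false} with ht
  have h1 : {A : Oracle | pre N A = a} = Set.pi (s : Set (List Bool)) t := by
    ext A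
    rw [Set.mem_pi]
    constructor
    · intro hA y hy
      rw [Finset.mem_coe, hs, Finset.mem_image] at hy
      obtain ⟨i, _, rfl⟩ := hy
      have h2 : A (str i) = a i := congrFun hA i
      rw [ht]
      simp only [idx_str, Set.mem_singleton_iff, i.2, dif_pos]
      exact h2
    · intro hA
      funext i
      have h2 := hA (str i) (by
        rw [Finset.mem_coe, hs, Finset.mem_image]
        exact ⟨i, Finset.mem_univ _, rfl⟩)
      rw [ht] at h2
      simp only [idx_str, Set.mem_singleton_iff, i.2, dif_pos] at h2
      exact h2
  rw [h1]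
  have h2 : law p (Set.pi (s : Set (List Bool)) t) = ∏ y ∈ s, coin (p y) (t y) :=
    Measure.infinitePi_pi (fun w : List Bool => coin (p w)) (s := s) (t := t)
      (fun i _ => MeasurableSet.singleton _)
  rw [h2, hs, Finset.prod_image (fun i _ j _ h => Fin.ext (str_injective h)),
    ENNReal.ofReal_prod_of_nonneg (fun i _ => bt_nonneg p N i _)]
  refine Finset.prod_congr rfl fun i _ => ?_
  rw [ht]
  simp only [idx_str, i.2, dif_pos]
  rw [coin_singleton]
  rfl

theorem measurable_pre (N : ℕ) : Measurable (pre N) :=
  measurable_pi_lambda _ fun i => measurable_pi_apply (str i)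

open Classical in
theorem law_local (p : List Bool → unitInterval) (N : ℕ) (S : (Fin N → Bool) → Prop) :
    law p {A | S (pre N A)} =
      ENNReal.ofReal (Ew (bt p N) (fun a => if S a then (1 : ℝ) else 0)) := by
  have h1 : {A : Oracle | S (pre N A)} = ⋃ a ∈ univ.filter S, {A : Oracle | pre N A = a} := by
    ext A
    simp
  rw [h1, measure_biUnion_finset]
  · rw [Finset.sum_congr rfl fun a _ => law_point p N a,
      ← ENNReal.ofReal_sum_of_nonneg (fun a _ =>
        Finset.prod_nonneg fun i _ => bt_nonneg p N i _)]
    congr 1
    unfold Ew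
    rw [Finset.sum_filter]
    refine Finset.sum_congr rfl fun a _ => ?_
    by_cases h : S a <;> simp [h]
  · intro a _ b _ hab
    rw [Function.onFun, Set.disjoint_left]
    intro A hA hB
    exact hab (hA.symm.trans hB)
  · intro a _
    exact measurable_pre N (MeasurableSet.singleton a)

/-- the set of oracles is determined by the strings of length at most `n` -/
def LocalAt (n : ℕ) (G : Set Oracle) : Prop :=
  ∀ A A' : Oracle, (∀ w : List Bool, w.length ≤ n → A w = A' w) → (A ∈ G ↔ A' ∈ G)

theorem orc_pre_eq {N n : ℕ} (hN : 2 ^ (n + 1) ≤ N) (A : Oracle) (w : List Bool)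
    (hw : w.length ≤ n) : orc N (pre N A) w = A w := by
  apply orc_pre
  have h1 := idx_lt w
  have h2 : 2 ^ (w.length + 1) ≤ 2 ^ (n + 1) := Nat.pow_le_pow_right (by norm_num) (by omega)
  omega

open Classical in
theorem law_of_local (p : List Bool → unitInterval) {N n : ℕ} (hN : 2 ^ (n + 1) ≤ N)
    {G : Set Oracle} (hG : LocalAt n G) :
    law p G = ENNReal.ofReal (Ew (bt p N) (fun a => if orc N a ∈ G then (1 : ℝ) else 0)) := by
  rw [← law_local p N (fun a => orc N a ∈ G)]
  congr 1
  ext A
  exact (hG _ _ (fun w hw => orc_pre_eq hN A w hw)).symm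

/-- the positions of the strings of length `n` -/
def lvl (N n : ℕ) : Finset (Fin N) := univ.filter (fun i => (str i).length = n)

theorem lvl_sum (N n : ℕ) (hN : 2 ^ (n + 1) ≤ N) (f : List Bool → ℝ) :
    ∑ i ∈ lvl N n, f (str i) = ∑ v : Fin n → Bool, f (List.ofFn v) := by
  symm
  have hlt : ∀ v : Fin n → Bool, idx (List.ofFn v) < N := by
    intro v
    have h1 := idx_lt (List.ofFn v)
    rw [List.length_ofFn] at h1
    omega
  refine Finset.sum_bij (fun v _ => ⟨idx (List.ofFn v), hlt v⟩) ?_ ?_ ?_ ?_
  · intro v _
    rw [lvl, Finset.mem_filter]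
    refine ⟨Finset.mem_univ _, ?_⟩
    show (str (idx (List.ofFn v))).length = n
    rw [str_idx, List.length_ofFn]
  · intro v _ v' _ h
    have h1 : idx (List.ofFn v) = idx (List.ofFn v') := by simpa using h
    have h2 : List.ofFn v = List.ofFn v' := by
      rw [← str_idx (List.ofFn v), h1, str_idx]
    exact List.ofFn_injective h2
  · intro i hi
    rw [lvl, Finset.mem_filter] at hi
    refine ⟨fun j => (str i).get (Fin.cast hi.2.symm j), Finset.mem_univ _, ?_⟩
    apply Fin.ext
    show idx (List.ofFn fun j => (str i).get (Fin.cast hi.2.symm j)) = i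
    have h3 : (List.ofFn fun j => (str i).get (Fin.cast hi.2.symm j)) = str i := by
      apply List.ext_getElem
      · rw [List.length_ofFn, hi.2]
      · intro k h1 h2
        simp
    rw [h3, idx_str]
  · intro v _
    show f (List.ofFn v) = f (str (idx (List.ofFn v)))
    rw [str_idx]

end Pool.Agent.W911.IB
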