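import Pool.Agent.W911.IB.Trb

/-!
# Polynomial advice does not help to bring `PSPACE` into the hierarchy
-/

set_option autoImplicit false

namespace Pool.Agent.W911.IB

open Pool.Agent.NPC Pool.Agent.H622R2
open Pool.Agent.H490R3.LH.EQAx
open Pool.Agent.H620R2.Gauge (Oracle Quant IsFP IsPH IsPHpoly Alg SAlg IsPSPACE)

theorem ovr_nil (A : Oracle) : ovr A [] = A := by
  funext w
  simp [ovr, key]

/-- the question, with the advice of the list -/
def GA (L' : Set (List Bool)) (h x c₁ c₂ t : List Bool) : Prop :=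
  pairBits (bits (((x, bits ([] : Cor)), (c₁, c₂), t) : Inp))
    (comp h (bits (((x, bits ([] : Cor)), (c₁, c₂), t) : Inp)).length) ∈ L'

theorem ph_GA {A : Oracle} {L' : Set (List Bool)} (hL : IsPH A L') : PHG A (GA L') := by
  intro hh xx cc₁ cc₂ tt h1 h2 h3 h4 h5
  have h6 : Poly (fun z => bits (((xx z, bits ([] : Cor)), (cc₁ z, cc₂ z), tt z) : Inp)) :=
    poly_of_polyTime (polyTime_bits (Poly.pair (Poly.pair h2 (NPC.Poly.const _))
      (Poly.pair (Poly.pair h3 h4) h5)))
  exact (isPH_iff.1 hL).red (poly_pairBits h6 (poly_comp h1 (Poly.length h6)))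

/-- If `PSPACE` is contained in the hierarchy with polynomial advice, then also without. -/
theorem advice_collapse {A : Oracle} (hA : ∀ L, IsPSPACE A L → IsPHpoly A L)
    {L : Set (List Bool)} (hL : IsPSPACE A L) : IsPH A L := by
  obtain ⟨M, p, hM⟩ := hL
  obtain ⟨L', adv, q, hL', hadv, hK⟩ := hA _ (TL_pspace M p A)
  obtain ⟨yb, hyb⟩ : ∃ r : Polynomial ℕ, ∀ n, r.eval n =
      4 * n + 4 * (bits ([] : Cor)).length + 12 * p.eval n + 20 :=
    ⟨4 * Polynomial.X + Polynomial.C (4 * (bits ([] : Cor)).length) + 12 * p + 20,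
      fun n => by simp⟩
  obtain ⟨Bd, hBd⟩ : ∃ r : Polynomial ℕ, ∀ n, r.eval n =
      (yb.eval n + 1) * (4 * q.eval (yb.eval n) + 2) + 1 :=
    ⟨(yb + 1) * (4 * q.comp yb + 2) + 1, fun n => by simp [Polynomial.eval_comp]⟩
  refine core (ph_GA hL') hM Bd fun x => ?_
  obtain ⟨n, hn⟩ : ∃ n, n = x.length := ⟨_, rfl⟩
  refine ⟨bits ((List.range (yb.eval n + 1)).map adv), ?_, ?_⟩
  · rw [bits_length, hBd, ← hn]
    have h1 := sz_le_length_mul ((List.range (yb.eval n + 1)).map adv)
      (4 * q.eval (yb.eval n) + 1) (by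
        intro a ha
        obtain ⟨i, hi, rfl⟩ := List.mem_map.1 ha
        rw [List.mem_range] at hi
        have h2 := sz_listBool_le (adv i)
        have h3 := hadv i
        have h4 : q.eval i ≤ q.eval (yb.eval n) := eval_mono q (by omega)
        omega)
    rw [List.length_map, List.length_range] at h1
    exact h1
  · intro c₁ h1 c₂ h2 t ht
    obtain ⟨y, hy⟩ : ∃ y, y = bits (((x, bits ([] : Cor)), (c₁, c₂), t) : Inp) := ⟨_, rfl⟩
    have ly : y.length ≤ yb.eval n := by
      rw [hy, bits_length, hyb]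
      simp only [sz_pair]
      have e1 := sz_listBool_le x
      have e2 := sz_listBool_le (bits ([] : Cor))
      have e3 := sz_listBool_le c₁
      have e4 := sz_listBool_le c₂
      have e5 := sz_listBool_le t
      rw [← hn] at h1 h2 ht e1
      omega
    have e1 : comp (bits ((List.range (yb.eval n + 1)).map adv)) y.length = adv y.length := by
      rw [comp_bits, List.getD_eq_getElem?_getD, List.getElem?_map,
        List.getElem?_range (by omega)]
      rfl
    have e2 : GA L' (bits ((List.range (yb.eval n + 1)).map adv)) x c₁ c₂ t ↔ y ∈ TL M p A := by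
      unfold GA
      rw [← hy, e1, hK y]
    rw [e2]
    unfold TL
    rw [Set.mem_ofPred_eq, hy, dT_bits, dH_bits, ovr_nil]

end Pool.Agent.W911.IB
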