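import Pool.Agent.H490R3.LH.EQA2
import Pool.Agent.H490R3.LH.T_QT
import Pool.Agent.H943R5.GC.U6

/-!
# Closure properties of the predicates in the polynomial hierarchy
-/

set_option autoImplicit false

namespace Pool.Agent.W911.IB

open Pool.Agent.NPC
open Pool.Agent.H490R3.LH.EQAx
open Pool.Agent.H620R2.Gauge (Oracle Quant IsFP IsPH Alg)

/-- The predicate is in the polynomial hierarchy relative to `A`. -/
def PHp (A : Oracle) (R : List Bool → Prop) : Prop := ∃ k b, QC A k b R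

variable {A : Oracle}

theorem QC.flip {k : ℕ} {b : Bool} {R : List Bool → Prop} (h : QC A k b R) :
    QC A (k + 1) (!b) R := by
  cases b with
  | false =>
    refine (QC.uni (μ := fun _ => 0) (h.red poly_u2) (UPoly.const 0)).congr fun y => ?_
    simp only [unpair2]
    exact ⟨fun ⟨_, _, h⟩ => h, fun h => ⟨[], Nat.zero_le _, h⟩⟩
  | true =>
    refine (QC.uniF (μ := fun _ => 0) (h.red poly_u2) (UPoly.const 0)).congr fun y => ?_
    simp only [unpair2]
    exact ⟨fun h => h [] (Nat.zero_le _), fun h _ _ => h⟩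

theorem QC.mono {k l : ℕ} (hkl : k ≤ l) {b : Bool} {R : List Bool → Prop} (h : QC A k b R) :
    QC A l b R := by
  induction l, hkl using Nat.le_induction with
  | base => exact h
  | succ n _ ih => exact ih.inc

theorem PHp.true {R : List Bool → Prop} (h : PHp A R) : ∃ k, QC A k Bool.true R := by
  obtain ⟨k, b, h⟩ := h
  cases b with
  | true => exact ⟨k, h⟩
  | false => exact ⟨k + 1, QC.flip h⟩

theorem PHp.false {R : List Bool → Prop} (h : PHp A R) : ∃ k, QC A k Bool.false R := by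
  obtain ⟨k, b, h⟩ := h
  cases b with
  | false => exact ⟨k, h⟩
  | true => exact ⟨k + 1, QC.flip h⟩

theorem isPH_iff {L : Set (List Bool)} : IsPH A L ↔ PHp A (fun x => x ∈ L) := by
  constructor
  · rintro ⟨V, p, k, hV, h⟩
    exact ⟨k, Bool.true, V, p, hV, h⟩
  · intro h
    obtain ⟨k, V, p, hV, h⟩ := h.true
    exact ⟨V, p, k, hV, h⟩

theorem PHp.congr {R R' : List Bool → Prop} (h : PHp A R) (hR : ∀ y, R y ↔ R' y) : PHp A R' := by
  obtain ⟨k, b, h⟩ := h
  exact ⟨k, b, h.congr hR⟩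

theorem PHp.red {R : List Bool → Prop} (h : PHp A R) {f : List Bool → List Bool}
    (hf : Poly f) : PHp A (fun y => R (f y)) := by
  obtain ⟨k, b, h⟩ := h
  exact ⟨k, b, h.red hf⟩

theorem PHp.neg {R : List Bool → Prop} (h : PHp A R) : PHp A (fun y => ¬ R y) := by
  obtain ⟨k, b, h⟩ := h
  exact ⟨k, !b, h.neg⟩

theorem PHp.ex {R : List Bool → Prop} (h : PHp A R) {μ : List Bool → ℕ} (hμ : UPoly μ) :
    PHp A (fun y => ∃ w : List Bool, w.length ≤ μ y ∧ R (pairBits w y)) := by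
  obtain ⟨k, h⟩ := h.false
  exact ⟨k + 1, Bool.true, h.uni hμ⟩

theorem PHp.all {R : List Bool → Prop} (h : PHp A R) {μ : List Bool → ℕ} (hμ : UPoly μ) :
    PHp A (fun y => ∀ w : List Bool, w.length ≤ μ y → R (pairBits w y)) := by
  obtain ⟨k, h⟩ := h.true
  exact ⟨k + 1, Bool.false, h.uniF hμ⟩

theorem PHp.and {R₁ R₂ : List Bool → Prop} (h₁ : PHp A R₁) (h₂ : PHp A R₂) :
    PHp A (fun y => R₁ y ∧ R₂ y) := by
  obtain ⟨k₁, h₁⟩ := h₁.true
  obtain ⟨k₂, h₂⟩ := h₂.true
  have g₁ := (QC.mono (le_max_left k₁ k₂) h₁).red poly_u2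
  have g₂ := (QC.mono (le_max_right k₁ k₂) h₂).red poly_u2
  have hc : Poly (fun z : List Bool => decide ((unpair z).1.length = 0)) :=
    Poly.decide_eq (Poly.length poly_u1) (NPC.Poly.const 0)
  have h3 := QC.conj (τ := fun _ => 2) (UPoly.const 2) (QC.ite hc g₁ g₂)
  refine ⟨_, _, h3.congr fun y => ?_⟩
  simp only [unpair1, unpair2, len_ones]
  constructor
  · intro h
    have e0 := h 0 (by norm_num)
    have e1 := h 1 (by norm_num)
    simp only [decide_true, true_and, Bool.true_eq_false, false_and, or_false] at e0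
    simp only [Nat.one_ne_zero, decide_false, Bool.false_eq_true, false_and, true_and,
      false_or] at e1
    exact ⟨e0, e1⟩
  · rintro ⟨e0, e1⟩ i hi
    by_cases hi0 : i = 0
    · left
      exact ⟨by simp [hi0], e0⟩
    · right
      exact ⟨by simp [hi0], e1⟩

theorem PHp.or {R₁ R₂ : List Bool → Prop} (h₁ : PHp A R₁) (h₂ : PHp A R₂) :
    PHp A (fun y => R₁ y ∨ R₂ y) :=
  (h₁.neg.and h₂.neg).neg.congr fun y => by
    rw [not_and_or, not_not, not_not]

theorem PHp.imp {R₁ R₂ : List Bool → Prop} (h₁ : PHp A R₁) (h₂ : PHp A R₂) :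
    PHp A (fun y => R₁ y → R₂ y) :=
  (h₁.neg.or h₂).congr fun y => by rw [← imp_iff_not_or]

theorem PHp.iff {R₁ R₂ : List Bool → Prop} (h₁ : PHp A R₁) (h₂ : PHp A R₂) :
    PHp A (fun y => R₁ y ↔ R₂ y) :=
  ((h₁.imp h₂).and (h₂.imp h₁)).congr fun _ => ⟨fun h => ⟨h.1, h.2⟩, fun h => ⟨h.1, h.2⟩⟩

/-- polynomial-time predicates -/
theorem PHp.of_poly {c : List Bool → Bool} (hc : Poly c) : PHp A (fun y => c y = Bool.true) := by
  refine ⟨0, Bool.true, fun y => [c y], 0, IsFP.of_poly (Poly.cons hc (NPC.Poly.const [])),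
    fun y => ?_⟩
  simp [Quant]

/-- predicates decided by an oracle algorithm -/
theorem PHp.of_fp {V : List Bool → List Bool} (hV : IsFP A V) :
    PHp A (fun y => V y = [Bool.true]) := by
  refine ⟨0, Bool.true, V, 0, hV, fun y => ?_⟩
  simp [Quant]

end Pool.Agent.W911.IB
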