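import Pool.Agent.H620R2.Gauge.Cover

/-!
# Independent bits with arbitrary biases: finite expectations
-/

set_option autoImplicit false

namespace Pool.Agent.W911.IB

open Finset H568R2 Pool.Agent.H676 Pool.Agent.H620R2.Gauge

section

variable {I : Type*} [Fintype I] [DecidableEq I] {A B : Type*} [Fintype A] [Fintype B]

/-- Expectation of `F` for independent coordinates with the weights `w i`. -/
noncomputable def Ew (w : I → A → ℝ) (F : (I → A) → ℝ) : ℝ :=
  ∑ ω : I → A, (∏ i, w i (ω i)) * F ω

theorem Ew_mono {w : I → A → ℝ} (hw : ∀ i a, 0 ≤ w i a) {F G : (I → A) → ℝ}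
    (h : ∀ ω, F ω ≤ G ω) : Ew w F ≤ Ew w G :=
  Finset.sum_le_sum fun ω _ =>
    mul_le_mul_of_nonneg_left (h ω) (Finset.prod_nonneg fun i _ => hw _ _)

theorem Ew_nonneg {w : I → A → ℝ} (hw : ∀ i a, 0 ≤ w i a) {F : (I → A) → ℝ}
    (h : ∀ ω, 0 ≤ F ω) : 0 ≤ Ew w F :=
  Finset.sum_nonneg fun ω _ => mul_nonneg (Finset.prod_nonneg fun i _ => hw _ _) (h ω)

theorem Ew_prodf (w φ : I → A → ℝ) :
    Ew w (fun ω => ∏ i, φ i (ω i)) = ∏ i, ∑ a, w i a * φ i a := by
  classical
  unfold Ew
  rw [Finset.prod_univ_sum, Fintype.piFinset_univ]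
  refine Finset.sum_congr rfl fun ω _ => ?_
  rw [Finset.prod_mul_distrib]

theorem Ew_const {w : I → A → ℝ} (hw : ∀ i, ∑ a, w i a = 1) (c : ℝ) :
    Ew w (fun _ : I → A => c) = c := by
  have h := Ew_prodf w (fun _ _ => (1 : ℝ))
  simp only [Finset.prod_const_one, mul_one, hw] at h
  unfold Ew at h ⊢
  simp only [mul_one] at h
  rw [← Finset.sum_mul, h, one_mul]

theorem Ew_add (w : I → A → ℝ) (F G : (I → A) → ℝ) :
    Ew w (fun ω => F ω + G ω) = Ew w F + Ew w G := by
  unfold Ew
  rw [← Finset.sum_add_distrib]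
  exact Finset.sum_congr rfl fun ω _ => by ring

theorem Ew_smul (w : I → A → ℝ) (c : ℝ) (F : (I → A) → ℝ) :
    Ew w (fun ω => c * F ω) = c * Ew w F := by
  unfold Ew
  rw [Finset.mul_sum]
  exact Finset.sum_congr rfl fun ω _ => by ring

theorem Ex_eq_Ew (w : A → ℝ) (F : (I → A) → ℝ) : Ex w F = Ew (fun _ => w) F := rfl

/-- pushing forward coordinate by coordinate -/
theorem Ew_push [DecidableEq B] (h : A → B) (w : I → A → ℝ) (v : I → B → ℝ)
    (hv : ∀ i b, v i b = ∑ a ∈ univ.filter (fun a => h a = b), w i a) (F : (I → B) → ℝ) :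
    Ew w (fun ω => F (fun i => h (ω i))) = Ew v F := by
  classical
  unfold Ew
  have key : ∀ X : I → B, (∏ i, v i (X i)) * F X =
      ∑ ω ∈ univ.filter (fun ω : I → A => (fun i => h (ω i)) = X),
        (∏ i, w i (ω i)) * F (fun i => h (ω i)) := by
    intro X
    have h1 : ∏ i, v i (X i) = ∑ ω ∈ univ.filter (fun ω : I → A => (fun i => h (ω i)) = X),
        ∏ i, w i (ω i) := by
      have : (univ.filter (fun ω : I → A => (fun i => h (ω i)) = X)) =
          Fintype.piFinset (fun i => univ.filter (fun a => h a = X i)) := by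
        ext ω
        simp [Fintype.mem_piFinset, funext_iff]
      rw [this, ← Finset.prod_univ_sum]
      exact Finset.prod_congr rfl fun i _ => hv i (X i)
    rw [h1, Finset.sum_mul]
    refine Finset.sum_congr rfl fun ω hω => ?_
    rw [(Finset.mem_filter.1 hω).2]
  rw [Finset.sum_congr rfl fun X _ => key X]
  rw [Finset.sum_fiberwise_of_maps_to (s := univ) (t := univ)
    (g := fun ω : I → A => (fun i => h (ω i)))
    (f := fun ω : I → A => (∏ i, w i (ω i)) * F (fun i => h (ω i)))]
  intro i _
  exact Finset.mem_univ _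

theorem Ew_prod (w : I → A → ℝ) (v : I → B → ℝ) (F : (I → A × B) → ℝ) :
    Ew (fun i (c : A × B) => w i c.1 * v i c.2) F =
      Ew w (fun α => Ew v (fun β => F (fun i => (α i, β i)))) := by
  classical
  unfold Ew
  rw [← (Equiv.arrowProdEquivProdArrow I (fun _ => A) (fun _ => B)).symm.sum_comp]
  rw [Fintype.sum_prod_type]
  refine Finset.sum_congr rfl fun α _ => ?_
  rw [Finset.mul_sum]
  refine Finset.sum_congr rfl fun β _ => ?_
  simp only [Equiv.arrowProdEquivProdArrow, Equiv.coe_fn_symm_mk]
  rw [Finset.prod_mul_distrib, mul_assoc]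

/-- The mixture of fixed bits and fair coins. -/
theorem Ew_mix (β : I → Bool → ℝ) (w : I → Option Bool → ℝ)
    (h : ∀ i b, β i b = w i none / 2 + w i (some b)) (G : (I → Bool) → ℝ) :
    Ew β G = Ew w (fun ρ : Restr I => Ex unif (fun a => G (ov ρ a))) := by
  have h1 := Ew_prod (I := I) w (fun _ => unif)
    (fun ω => G (fun i => (ω i).1.getD (ω i).2))
  have h2 := Ew_push (I := I) (fun c : Option Bool × Bool => c.1.getD c.2)
    (fun i c => w i c.1 * unif c.2) β (by
      intro i b
      rw [h, Finset.sum_filter, Fintype.sum_prod_type]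
      simp only [Fintype.sum_option, Fintype.sum_bool]
      rcases b with _ | _ <;> simp [unif] <;> ring) G
  rw [← h2, h1]
  rfl

open Classical in
/-- The weights where the coordinates outside of `S` are fixed by `b`. -/
noncomputable def cond (β : I → A → ℝ) (S : Finset I) (b : I → A) : I → A → ℝ :=
  fun i a => if i ∈ S then β i a else if a = b i then 1 else 0

theorem Ew_cond {β : I → A → ℝ} (hβ : ∀ i, ∑ a, β i a = 1) (S : Finset I)
    (F : (I → A) → ℝ) : Ew β F = Ew β (fun b => Ew (cond β S b) F) := by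
  classical
  unfold Ew
  simp only [Finset.mul_sum]
  rw [Finset.sum_comm]
  refine Finset.sum_congr rfl fun a _ => ?_
  have h1 : ∀ b : I → A, (∏ i, β i (b i)) * ((∏ i, cond β S b i (a i)) * F a) =
      (∏ i, (β i (b i) * (if i ∈ S then β i (a i) else if a i = b i then 1 else 0))) * F a := by
    intro b
    rw [Finset.prod_mul_distrib, mul_assoc]
    rfl
  rw [Finset.sum_congr rfl fun b _ => h1 b, ← Finset.sum_mul]
  congr 1
  have h2 := Finset.prod_univ_sum (fun _ : I => (univ : Finset A))
    (fun i c => β i c * (if i ∈ S then β i (a i) else if a i = c then 1 else 0))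
  rw [Fintype.piFinset_univ] at h2
  rw [← h2]
  refine Finset.prod_congr rfl fun i _ => ?_
  by_cases hi : i ∈ S
  · simp only [hi, if_true]
    rw [← Finset.sum_mul, hβ, one_mul]
  · simp only [hi, if_false]
    rw [Finset.sum_eq_single (a i)]
    · simp
    · intro c _ hc
      rw [if_neg (fun h => hc h.symm), mul_zero]
    · intro h
      exact absurd (Finset.mem_univ _) h

open Classical in
/-- Conditional probabilities: the event `G` does not depend on the coordinates in `S`, and `C`
has conditional probability at most `κ` given the other coordinates. -/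
theorem Ew_chain {β : I → A → ℝ} (hβ0 : ∀ i a, 0 ≤ β i a) (hβ : ∀ i, ∑ a, β i a = 1)
    (S : Finset I) (G C : (I → A) → Prop) (hG : ∀ a b : I → A, (∀ i ∉ S, a i = b i) → (G a ↔ G b))
    (κ : ℝ) (hC : ∀ b : I → A, Ew (cond β S b) (fun a => if C a then (1 : ℝ) else 0) ≤ κ) :
    Ew β (fun a => if G a ∧ C a then (1 : ℝ) else 0) ≤
      κ * Ew β (fun a => if G a then (1 : ℝ) else 0) := by
  rw [Ew_cond hβ S, ← Ew_smul]
  refine Ew_mono hβ0 fun b => ?_
  have h1 : Ew (cond β S b) (fun a => if G a ∧ C a then (1 : ℝ) else 0) =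
      Ew (cond β S b) (fun a => if G b ∧ C a then (1 : ℝ) else 0) := by
    unfold Ew
    refine Finset.sum_congr rfl fun a _ => ?_
    by_cases hab : ∀ i ∉ S, a i = b i
    · simp only [hG a b hab]
    · push Not at hab
      obtain ⟨i, hi, hne⟩ := hab
      have h0 : ∏ i, cond β S b i (a i) = 0 := by
        refine Finset.prod_eq_zero (Finset.mem_univ i) ?_
        unfold cond
        rw [if_neg hi, if_neg hne]
      rw [h0, zero_mul, zero_mul]
  rw [h1]
  by_cases hb : G b
  · simp only [hb, true_and, if_true, mul_one]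
    exact hC b
  · simp only [hb, false_and, if_false, mul_zero]
    exact (le_of_eq (by unfold Ew; simp))

end

end Pool.Agent.W911.IB
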