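import Pool.Agent.W911.IB.Stp

/-!
# Hierarchy algorithms with a corrected oracle
-/

set_option autoImplicit false

namespace Pool.Agent.W911.IB

open Pool.Agent.NPC Pool.Agent.H622R2
open Pool.Agent.H490R3.LH.EQAx
open Pool.Agent.H490R3.LH
open Pool.Agent.H620R2.Gauge (Oracle Quant IsFP IsPH Alg SAlg IsPSPACE)

theorem quant_TTp (W : List Bool → List Bool → List Bool) (f : List Bool → List Bool)
    (μ : List Bool → ℕ) (M : ℕ) :
    ∀ (i j : ℕ) (b : Bool) (z : List Bool), μ (EQAx.inner j z) ≤ M →
      (Quant M (fun z => W (EQAx.inner (i + j) z) (TT f μ (i + j) z)) i b z ↔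
        Quant (μ (EQAx.inner j z)) (W (EQAx.inner j z)) i b (TT f μ j z)) := by
  intro i
  induction i with
  | zero => intro j b z _; simp only [Quant, Nat.zero_add]
  | succ i ih =>
    intro j b z hM
    have e1 : ∀ w, EQAx.inner (j + 1) (pairBits w z) = EQAx.inner j z := fun w => by
      simp only [EQAx.inner, unpair2]
    have e2 : ∀ w, TT f μ (j + 1) (pairBits w z) =
        pairBits (cut (μ (EQAx.inner j z)) w) (TT f μ j z) := fun w => by
      simp only [TT, unpair1, unpair2]
    have e3 : i + 1 + j = i + (j + 1) := by omega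
    rw [e3]
    have key : ∀ w b', Quant M (fun z => W (EQAx.inner (i + (j + 1)) z) (TT f μ (i + (j + 1)) z)) i b'
        (pairBits w z) ↔
        Quant (μ (EQAx.inner j z)) (W (EQAx.inner j z)) i b' (pairBits (cut (μ (EQAx.inner j z)) w)
          (TT f μ j z)) := by
      intro w b'
      rw [ih (j + 1) b' (pairBits w z) (by rw [e1]; exact hM), e1, e2]
    cases b with
    | true =>
      simp only [Quant, key]
      constructor
      · rintro ⟨w, hw, h⟩
        exact ⟨cut _ w, cut_le _ _, h⟩
      · rintro ⟨w, hw, h⟩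
        exact ⟨w, hw.trans hM, by rw [cut_of_le hw]; exact h⟩
    | false =>
      simp only [Quant, key]
      constructor
      · intro h w hw
        have := h w (hw.trans hM)
        rwa [cut_of_le hw] at this
      · intro h w hw
        exact h _ (cut_le _ _)

/-- a hierarchy algorithm, with the oracle `A` corrected by a list that is part of the input -/
def FF (N : Alg) (m : Polynomial ℕ) (k : ℕ) (A : Oracle) (h y : List Bool) : Prop :=
  Quant (m.eval y.length) (fun z => (N.out (ovr A (dH h)) z).getD []) k true y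

theorem ph_FF (N : Alg) (m : Polynomial ℕ) (k : ℕ) (A : Oracle) :
    PHp A (fun u => FF N m k A (unpair u).1 (unpair u).2) := by
  have hμ : UPoly (fun u : List Bool => m.eval (unpair u).2.length) :=
    UPoly.eval (UPoly.length poly_u2) m
  obtain ⟨p, hp⟩ := upoly_bound hμ
  have hTT := poly_TT poly_u2 hμ.toPoly k
  have hin : Poly (fun y : List Bool => (unpair (EQAx.inner k y)).1) := poly_u1.comp (poly_inner k)
  have h1 := Pool.Agent.H490R3.LH.t_QT (Pool.Agent.H943R5.GC.U6.toRO N)
    (fun q => key (dH (unpair (EQAx.inner k q.1)).1) q.2)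
    (fun q => vl (dH (unpair (EQAx.inner k q.1)).1) q.2)
    (fun q => q.2) (TT (fun z => (unpair z).2) (fun u => m.eval (unpair u).2.length) k)
    (poly_key.comp (f := fun q : List Bool × List Bool => (dH (unpair (EQAx.inner k q.1)).1, q.2))
      (Poly.pair (poly_dH.comp (hin.comp (Poly.fst Poly.id))) (Poly.snd Poly.id)))
    (poly_vl.comp (f := fun q : List Bool × List Bool => (dH (unpair (EQAx.inner k q.1)).1, q.2))
      (Poly.pair (poly_dH.comp (hin.comp (Poly.fst Poly.id))) (Poly.snd Poly.id)))
    (Poly.snd Poly.id) hTT A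
  have h2 := Pool.Agent.H943R5.GC.U6.isFP_ofRO h1
  refine ⟨k, true, _, p, h2, fun u => ?_⟩
  have h3 := quant_TTp (fun u z => (N.out (ovr A (dH (unpair u).1)) z).getD [])
    (fun z => (unpair z).2) (fun u => m.eval (unpair u).2.length) (p.eval u.length) k 0 true u
    (hp u)
  have h4 : (fun z => ((Pool.Agent.H943R5.GC.U6.toRO N).out (fun q =>
      if key (dH (unpair (EQAx.inner k z)).1) q = true then vl (dH (unpair (EQAx.inner k z)).1) q
      else A q) (TT (fun z => (unpair z).2) (fun u => m.eval (unpair u).2.length) k z)).getD []) =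
      fun z => (N.out (ovr A (dH (unpair (EQAx.inner k z)).1))
        (TT (fun z => (unpair z).2) (fun u => m.eval (unpair u).2.length) k z)).getD [] := by
    funext z
    congr 1
    exact Pool.Agent.H943R5.GC.U6.run_toRO N _ _ _ _
  show FF N m k A (unpair u).1 (unpair u).2 ↔ Quant (p.eval u.length) (fun z =>
      ((Pool.Agent.H943R5.GC.U6.toRO N).out (fun q =>
      if key (dH (unpair (EQAx.inner k z)).1) q = true then vl (dH (unpair (EQAx.inner k z)).1) q
      else A q) (TT (fun z => (unpair z).2) (fun u => m.eval (unpair u).2.length) k z)).getD [])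
      k true u
  rw [h4]
  exact h3.symm

/-- one step of an algorithm, with the oracle -/
theorem ph_step (M : SAlg) (p : Polynomial ℕ) (A : Oracle) :
    PHp A (fun y => stp M A (dT y).1.1 (p.eval (dT y).1.1.length) (dT y).2.1.1 =
      (dT y).2.1.2) := by
  have h1 := poly_dT
  have h2 := poly_qy M
  have h3 := poly_stb M
  have hQ : Poly (fun y : List Bool => [qy M (dT y).1.1 (dT y).2.1.1]) :=
    Poly.cons (h2.comp (f := fun y => ((dT y).1.1, (dT y).2.1.1)) (by fun_prop))
      (NPC.Poly.const [])
  have h10 : Poly (fun v : List Bool × List Bool => p.eval (dT v.1).1.1.length) :=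
    (UPoly.eval (UPoly.length (by fun_prop)) p).toPoly
  have h11 : Poly (fun v : List Bool × List Bool => stb M (v.2.head?.getD false) (dT v.1).1.1
      (p.eval (dT v.1).1.1.length) (dT v.1).2.1.1) :=
    h3.comp (f := fun v : List Bool × List Bool => (v.2.head?.getD false, (dT v.1).1.1,
      p.eval (dT v.1).1.1.length, (dT v.1).2.1.1)) (by fun_prop)
  have hH : Poly (fun v : List Bool × List Bool => [decide (stb M (v.2.head?.getD false)
      (dT v.1).1.1 (p.eval (dT v.1).1.1.length) (dT v.1).2.1.1 = (dT v.1).2.1.2)]) := by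
    fun_prop
  refine (PHp.of_fp (Pool.Agent.H620R2.Gauge.IsFP.tt (A := A) hQ hH)).congr fun y => ?_
  simp [stp]

end Pool.Agent.W911.IB
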