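import Pool.Agent.W911.IB.Fin

/-!
# Alternating quantifiers against the parity of independent biased bits
-/

set_option autoImplicit false

namespace Pool.Agent.W911.IB

open Finset H568R2 Pool.Agent.H676 Pool.Agent.H620R2.Gauge

section

variable {I : Type*} [Fintype I] [DecidableEq I]

theorem ov_cmp' (ρ τ : Restr I) (a : I → Bool) : ov ρ (ov τ a) = ov (H568R2.cmp ρ τ) a := by
  funext i
  unfold ov H568R2.cmp
  cases ρ i <;> simp

open Classical in
theorem QF_rs (m : ℕ) (F : List Bool → (I → Bool) → Bool) (ρ : Restr I) : ∀ (k : ℕ) (b : Bool)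
    (y : List Bool), QF m (fun y => rs (F y) ρ) k b y = rs (QF m F k b y) ρ := by
  intro k
  induction k with
  | zero => intro b y; rfl
  | succ k ih =>
    intro b y
    cases b with
    | true =>
      funext a
      show decide (∃ w : List Bool, w.length ≤ m ∧ QF m (fun y => rs (F y) ρ) k false
        (NPC.pairBits w y) a = true) = decide (∃ w : List Bool, w.length ≤ m ∧
        QF m F k false (NPC.pairBits w y) (ov ρ a) = true)
      simp only [ih, rs]
    | false =>
      funext a
      show decide (∀ w : List Bool, w.length ≤ m → QF m (fun y => rs (F y) ρ) k true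
        (NPC.pairBits w y) a = true) = decide (∀ w : List Bool, w.length ≤ m →
        QF m F k true (NPC.pairBits w y) (ov ρ a) = true)
      simp only [ih, rs]

/-- the smaller one of the two probabilities -/
noncomputable def dl (β : I → Bool → ℝ) (i : I) : ℝ := min (β i true) (β i false)

/-- the weights of the restrictions -/
noncomputable def wr (β : I → Bool → ℝ) (i : I) : Option Bool → ℝ
  | none => 2 * dl β i
  | some b => β i b - dl β i

theorem wr_mix (β : I → Bool → ℝ) (i : I) (b : Bool) :
    β i b = wr β i none / 2 + wr β i (some b) := by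
  simp only [wr]
  ring

theorem dl_le (β : I → Bool → ℝ) (i : I) (b : Bool) : dl β i ≤ β i b := by
  cases b with
  | true => exact min_le_left _ _
  | false => exact min_le_right _ _

theorem dl_nonneg {β : I → Bool → ℝ} (h : ∀ i b, 0 ≤ β i b) (i : I) : 0 ≤ dl β i :=
  le_min (h _ _) (h _ _)

theorem wr_nonneg {β : I → Bool → ℝ} (h : ∀ i b, 0 ≤ β i b) (i : I) (c : Option Bool) :
    0 ≤ wr β i c := by
  cases c with
  | none => exact mul_nonneg (by norm_num) (dl_nonneg h i)
  | some b => exact sub_nonneg.2 (dl_le β i b)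

theorem wr_sum {β : I → Bool → ℝ} (h : ∀ i, ∑ b, β i b = 1) (i : I) : ∑ c, wr β i c = 1 := by
  rw [Fintype.sum_option]
  simp only [wr, Fintype.sum_bool]
  have := h i
  rw [Fintype.sum_bool] at this
  linarith

open Classical in
/-- few common stars -/
theorem few_common {β : I → Bool → ℝ} (h0 : ∀ i b, 0 ≤ β i b) (h1 : ∀ i, ∑ b, β i b = 1)
    (B : Finset I) (t : ℕ) {Q : ℝ} (hQ0 : 0 ≤ Q) (hQ1 : Q ≤ 1) :
    Ew (wr β) (fun ρ : Restr I => Ex (wq Q) (fun τ : Restr I =>
      if (B.filter (fun i => H568R2.cmp ρ τ i = none)).card ≤ t then (1 : ℝ) else 0)) ≤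
      2 ^ t * Real.exp (-(Q * ∑ i ∈ B, dl β i)) := by
  have hpt : ∀ ρ τ : Restr I,
      (if (B.filter (fun i => H568R2.cmp ρ τ i = none)).card ≤ t then (1 : ℝ) else 0) ≤
      2 ^ t * ∏ i, (if i ∈ B ∧ ρ i = none ∧ τ i = none then (1 / 2 : ℝ) else 1) := by
    intro ρ τ
    have hprod : ∏ i, (if i ∈ B ∧ ρ i = none ∧ τ i = none then (1 / 2 : ℝ) else 1) =
        (1 / 2) ^ (B.filter (fun i => H568R2.cmp ρ τ i = none)).card := by
      rw [Finset.prod_ite, Finset.prod_const_one, mul_one, Finset.prod_const]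
      congr 2
      ext i
      simp only [Finset.mem_filter, Finset.mem_univ, true_and, H568R2.cmp, Option.or_eq_none_iff]
    rw [hprod]
    split_ifs with hc
    · have h2 : (1 / 2 : ℝ) ^ t ≤ (1 / 2) ^ (B.filter (fun i => H568R2.cmp ρ τ i = none)).card :=
        pow_le_pow_of_le_one (by norm_num) (by norm_num) hc
      have h3 : (2 : ℝ) ^ t * (1 / 2) ^ t = 1 := by
        rw [← mul_pow]; norm_num
      have h4 := mul_le_mul_of_nonneg_left h2 (show (0 : ℝ) ≤ 2 ^ t by positivity)
      rw [h3] at h4
      exact h4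
    · positivity
  have hin : ∀ ρ : Restr I, Ex (wq Q) (fun τ : Restr I =>
      if (B.filter (fun i => H568R2.cmp ρ τ i = none)).card ≤ t then (1 : ℝ) else 0) ≤
      2 ^ t * ∏ i, (if i ∈ B ∧ ρ i = none then (1 - Q / 2 : ℝ) else 1) := by
    intro ρ
    refine (Ex_mono (wq_nonneg hQ0 hQ1) (hpt ρ)).trans (le_of_eq ?_)
    rw [Ex_smul, Ex_eq_Ew]
    congr 1
    have h2 := Ew_prodf (I := I) (fun _ => wq Q)
      (fun i c => if i ∈ B ∧ ρ i = none ∧ c = none then (1 / 2 : ℝ) else 1)
    rw [h2]
    refine Finset.prod_congr rfl fun i _ => ?_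
    rw [Fintype.sum_option, Fintype.sum_bool]
    by_cases h3 : i ∈ B ∧ ρ i = none
    · simp only [h3, wq, and_self, if_true, reduceCtorEq, and_false, if_false]
      ring
    · have h4 : ¬ (i ∈ B ∧ ρ i = none ∧ (none : Option Bool) = none) := fun h => h3 ⟨h.1, h.2.1⟩
      have h5 : ∀ b : Bool, ¬ (i ∈ B ∧ ρ i = none ∧ some b = (none : Option Bool)) := fun b h =>
        absurd h.2.2 (by simp)
      rw [if_neg h4, if_neg (h5 true), if_neg (h5 false), if_neg h3]
      simp only [wq]
      ring
  refine (Ew_mono (wr_nonneg h0) hin).trans ?_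
  rw [Ew_smul]
  refine mul_le_mul_of_nonneg_left ?_ (by positivity)
  have h2 := Ew_prodf (I := I) (wr β)
      (fun i c => if i ∈ B ∧ c = none then (1 - Q / 2 : ℝ) else 1)
  rw [h2]
  have h3 : ∀ i, ∑ c, wr β i c * (if i ∈ B ∧ c = none then (1 - Q / 2 : ℝ) else 1) =
      if i ∈ B then 1 - Q * dl β i else 1 := by
    intro i
    have h4 := wr_sum h1 i
    rw [Fintype.sum_option] at h4 ⊢
    by_cases hi : i ∈ B
    · simp only [hi, true_and, if_true, reduceCtorEq, if_false, mul_one]
      have h5 : wr β i none = 2 * dl β i := rfl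
      rw [h5] at h4 ⊢
      linarith
    · simp only [hi, false_and, if_false, mul_one]
      exact h4
  rw [Finset.prod_congr rfl fun i _ => h3 i, ← Finset.prod_filter]
  have h5 : Finset.univ.filter (fun i => i ∈ B) = B := by ext i; simp
  rw [h5, Finset.mul_sum, ← Finset.sum_neg_distrib, Real.exp_sum]
  refine Finset.prod_le_prod (fun i _ => ?_) (fun i _ => ?_)
  · have h6 : dl β i ≤ 1 := by
      have h7 := h1 i
      rw [Fintype.sum_bool] at h7
      have := dl_le β i true
      have := h0 i false
      linarith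
    have := dl_nonneg h0 i
    nlinarith
  · have := Real.add_one_le_exp (-(Q * dl β i))
    linarith

open Classical in
/-- The probability that alternating quantifiers in front of shallow decision trees compute the
parity of the bits in `B`. -/
theorem level_bound {β : I → Bool → ℝ} (hβ0 : ∀ i b, 0 ≤ β i b) (hβ : ∀ i, ∑ b, β i b = 1)
    (B : Finset I) {t : ℕ} (ht : 1 ≤ t) {q : ℝ} (h0 : 0 ≤ q) (h1 : q ≤ 1 / 3) (m : ℕ)
    (F : List Bool → (I → Bool) → Bool) (k ℓ : ℕ)
    (hF : ∀ y : List Bool, y.length ≤ ℓ + k * (2 * m + 1) → DTr t (F y)) (y : List Bool)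
    (hy : y.length ≤ ℓ) :
    Ew β (fun a : I → Bool => if QF m F k true y a = par B a then (1 : ℝ) else 0) ≤
      k * 2 ^ (ℓ + k * (2 * m + 1) + 2) * (12 * t * q) ^ (t + 1) +
        2 ^ t * Real.exp (-(q ^ k * ∑ i ∈ B, dl β i)) + 1 / 2 := by
  have hq0 : 0 ≤ q ^ k := pow_nonneg h0 k
  have hq1 : q ^ k ≤ 1 := pow_le_one₀ h0 (by linarith)
  rw [Ew_mix β (wr β) (wr_mix β)]
  have hin : ∀ ρ : Restr I, Ex unif (fun a : I → Bool =>
      if QF m F k true y (ov ρ a) = par B (ov ρ a) then (1 : ℝ) else 0) ≤
      Ex (wq (q ^ k)) (fun τ : Restr I =>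
        if (B.filter (fun i => H568R2.cmp ρ τ i = none)).card ≤ t then (1 : ℝ) else 0) +
      (k * 2 ^ (ℓ + k * (2 * m + 1) + 2) * (12 * t * q) ^ (t + 1) + 1 / 2) := by
    intro ρ
    have e1 := Ex_ov (I := I) (q := q ^ k) (fun a : I → Bool =>
      if QF m F k true y (ov ρ a) = par B (ov ρ a) then (1 : ℝ) else 0)
    rw [← e1]
    have hpt : ∀ τ : Restr I, Ex unif (fun a : I → Bool =>
        if QF m F k true y (ov ρ (ov τ a)) = par B (ov ρ (ov τ a)) then (1 : ℝ) else 0) ≤
        (if ¬ ∀ y : List Bool, y.length ≤ ℓ → ∀ b,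
          DTr t (rs (QF m (fun y => rs (F y) ρ) k b y) τ) then (1 : ℝ) else 0) +
        ((if (B.filter (fun i => H568R2.cmp ρ τ i = none)).card ≤ t then (1 : ℝ) else 0) + 1 / 2) := by
      intro τ
      have hle1 : Ex unif (fun a : I → Bool =>
        if QF m F k true y (ov ρ (ov τ a)) = par B (ov ρ (ov τ a)) then (1 : ℝ) else 0) ≤ 1 := by
        refine (Ex_mono (G := fun _ => (1 : ℝ)) unif_nonneg fun a => ?_).trans
          (le_of_eq (Ex_const unif_sum 1))
        split_ifs <;> norm_num
      by_cases hG : ∀ y : List Bool, y.length ≤ ℓ → ∀ b,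
          DTr t (rs (QF m (fun y => rs (F y) ρ) k b y) τ)
      · by_cases hst : (B.filter (fun i => H568R2.cmp ρ τ i = none)).card ≤ t
        · rw [if_pos hst]
          have : (0 : ℝ) ≤ (if ¬ ∀ y : List Bool, y.length ≤ ℓ → ∀ b,
            DTr t (rs (QF m (fun y => rs (F y) ρ) k b y) τ) then (1 : ℝ) else 0) := by
            split_ifs <;> norm_num
          linarith
        · rw [if_neg (not_not.2 hG), if_neg hst, zero_add, zero_add]
          have h2 := xor_bound (I := I) (ι := Unit) (H568R2.cmp ρ τ) {()} (fun _ => B)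
            (fun x _ x' _ h => absurd (Subsingleton.elim x x') h)
            (fun _ => QF m F k true y) t (by
              intro x _
              have h3 := hG y hy true
              rw [QF_rs] at h3
              rw [rs_cmp]
              exact h3) (by
              intro x _
              rw [Finset.card_singleton, one_mul]
              omega)
          rw [Finset.card_singleton, pow_one] at h2
          refine le_trans (le_of_eq ?_) h2
          congr 1
          funext a
          simp [ov_cmp']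
      · rw [if_pos hG]
        have : (0 : ℝ) ≤ (if (B.filter (fun i => H568R2.cmp ρ τ i = none)).card ≤ t
          then (1 : ℝ) else 0) := by split_ifs <;> norm_num
        linarith
    refine (Ex_mono (wq_nonneg hq0 hq1) hpt).trans ?_
    rw [Ex_add, Ex_add, Ex_const (wq_sum (q ^ k))]
    have h7 := switch_alt (I := I) ht h0 h1 m (fun y => rs (F y) ρ) k ℓ
      (fun y hy => (hF y hy).rs)
    linarith
  refine (Ew_mono (wr_nonneg hβ0) hin).trans ?_
  rw [Ew_add, Ew_const (wr_sum hβ)]
  have h8 := few_common hβ0 hβ B t hq0 hq1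
  linarith

end

end Pool.Agent.W911.IB
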