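import Pool.Agent.W911.IB.Sp
import Pool.Agent.W911.IB.Adv

/-!
# Independent bits: the main theorem
-/

set_option autoImplicit false

namespace Pool.Agent.W911.IB

open MeasureTheory Filter
open Pool.Agent.NPC
open Pool.Agent.H620R2.Gauge (Oracle IsPH IsPHpoly IsPSPACE parLang W_strs W_mem_strs
  W_length_of_mem)

/-- `PH = PSPACE` relative to the oracle. -/
def Same (A : Oracle) : Prop := ∀ L, IsPH A L ↔ IsPSPACE A L

theorem same_iff {A : Oracle} : Same A ↔ ∀ L, IsPSPACE A L → IsPH A L :=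
  ⟨fun h L => (h L).2, fun h L =>
    ⟨fun h1 => Pool.Agent.H620R2.Gauge.IsPH.isPSPACE h1, h L⟩⟩

theorem same_of_few {A B : Oracle} (h : Few A B) : Same A ↔ Same B := by
  rw [same_iff, same_iff]
  exact ⟨fun h1 L hL => collapse_transfer h.symm h1 hL,
    fun h1 L hL => collapse_transfer h h1 hL⟩

theorem exists_poly_of_not_same {A : Oracle} (h : ¬ Same A) :
    ∃ L, IsPSPACE A L ∧ ¬ IsPHpoly A L := by
  by_contra hcon
  push Not at hcon
  exact h (same_iff.2 fun L hL => advice_collapse hcon hL)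

theorem few_of_ncard {A B : Oracle} (h : ∃ R : Polynomial ℕ, ∀ n,
    {w : List Bool | w.length ≤ n ∧ A w ≠ B w}.ncard ≤ R.eval n) : Few A B := by
  obtain ⟨R, hR⟩ := h
  refine ⟨R, fun n => ?_⟩
  refine le_trans (le_of_eq ?_) (hR n)
  have h1 : {w : List Bool | w.length ≤ n ∧ A w ≠ B w} = (Dif A B n : Set (List Bool)) := by
    ext w
    unfold Dif
    rw [Finset.coe_filter]
    simp only [Set.mem_ofPred_eq]
    exact and_congr_left fun _ => ⟨fun h => W_mem_strs h, fun h => W_length_of_mem h⟩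
  rw [h1, Set.ncard_coe_finset]

/-- the classification -/
theorem classify (p : List Bool → unitInterval) :
    ((∃ P : Polynomial ℕ, ∀ n, dev p n ≤ ((P.eval n : ℕ) : ℝ)) →
      ∀ᵐ A ∂(law p), (Same A ↔ Same (modeO p))) ∧
    ((¬ ∃ P : Polynomial ℕ, ∀ n, dev p n ≤ ((P.eval n : ℕ) : ℝ)) →
      ∀ᵐ A ∂(law p), ¬ Same A) := by
  constructor
  · rintro ⟨P, hP⟩
    filter_upwards [few_ae p P hP] with A hA
    exact same_of_few hA
  · intro h
    filter_upwards [parL_not_ph p h] with A hA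
    intro hs
    exact hA ((hs _).2 (parL_pspace A))

theorem zero_one (p : List Bool → unitInterval) :
    ((∀ᵐ A ∂(law p), Same A) ↔
      Same (modeO p) ∧ ∃ P : Polynomial ℕ, ∀ n, dev p n ≤ ((P.eval n : ℕ) : ℝ)) ∧
    ((¬ ∀ᵐ A ∂(law p), Same A) →
      ∀ᵐ A ∂(law p), ∃ L, IsPSPACE A L ∧ ¬ IsPHpoly A L) := by
  have hne : ∀ {R : Oracle → Prop}, (∀ᵐ A ∂(law p), ¬ R A) → ¬ ∀ᵐ A ∂(law p), R A := by
    intro R h1 h2
    have h3 : ∀ᵐ _A ∂(law p), False := by
      filter_upwards [h1, h2] with A h4 h5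
      exact h4 h5
    rw [ae_iff] at h3
    simp at h3
  obtain ⟨h1, h2⟩ := classify p
  by_cases hP : ∃ P : Polynomial ℕ, ∀ n, dev p n ≤ ((P.eval n : ℕ) : ℝ)
  · by_cases hs : Same (modeO p)
    · have h3 : ∀ᵐ A ∂(law p), Same A := by
        filter_upwards [h1 hP] with A hA
        exact hA.2 hs
      exact ⟨⟨fun _ => ⟨hs, hP⟩, fun _ => h3⟩, fun h => absurd h3 h⟩
    · have h3 : ∀ᵐ A ∂(law p), ¬ Same A := by
        filter_upwards [h1 hP] with A hA
        exact fun h => hs (hA.1 h)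
      refine ⟨⟨fun h => absurd h (hne h3), fun h => absurd h.1 hs⟩, fun _ => ?_⟩
      filter_upwards [h3] with A hA
      exact exists_poly_of_not_same hA
  · have h3 := h2 hP
    refine ⟨⟨fun h => absurd h (hne h3), fun h => absurd h.2 hP⟩, fun _ => ?_⟩
    filter_upwards [h3] with A hA
    exact exists_poly_of_not_same hA

end Pool.Agent.W911.IB
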