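import Pool.Agent.W911.IB.Law
import Pool.Agent.H620R2.Gauge.P
import Pool.Agent.H620R2.Gauge.U1

/-!
# The parity language of the levels
-/

set_option autoImplicit false

namespace Pool.Agent.W911.IB

open Finset MeasureTheory Pool.Agent.NPC H568R2 Pool.Agent.H676 Pool.Agent.H620R2.Gauge
  Pool.Agent.H622R2

/-- the parity of the number of strings of length `n` in the oracle -/
def parA (A : Oracle) (n : ℕ) : Prop :=
  Odd ((Finset.range (2 ^ n)).filter (fun j => A (bitsOf n j) = true)).card

/-- the parity language: the strings whose length `n` is such that the oracle contains an odd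
number of strings of length `n` -/
def parL (A : Oracle) : Set (List Bool) := {x | parA A x.length}

/-- the second half of a string -/
def sh (y : List Bool) : List Bool := y.drop (y.length / 2)

theorem tail_iter (l : List Bool) (k : ℕ) : List.tail^[k] l = l.drop k := by
  induction k with
  | zero => rfl
  | succ k ih => rw [Function.iterate_succ_apply', ih, List.tail_drop]

theorem p_drop' {α : Type} [TEnc α] {v : α → List Bool} {n : α → ℕ} (hv : Poly v)
    (hn : UPoly n) : Poly (fun a => (v a).drop (n a)) := by
  obtain ⟨r, hr⟩ := hv.sz_le
  refine (Poly.iterLen (l := fun a => List.replicate (n a) ()) (s := v)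
    (F := fun (_ : α) (s : List Bool) => s.tail) hn hv (Poly.tail (Poly.snd Poly.id)) r
    ?_).congr fun a => ?_
  · intro a k _
    have e : (fun s : List Bool => s.tail)^[k] (v a) = (v a).drop k := tail_iter _ _
    rw [e]
    exact (Poly.sz_drop_le _ _).trans (hr a)
  · rw [List.length_replicate]
    exact tail_iter _ _

theorem poly_sh : Poly sh :=
  p_drop' Poly.id (UPoly.of_le (Poly.div (Poly.length Poly.id) (NPC.Poly.const 2))
    (UPoly.length Poly.id) fun _ => Nat.div_le_self _ _)

/-- translated question -/
def trAct (tr : List Bool → List Bool) (a : List Bool) : List Bool :=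
  if a.head? = some false then false :: tr a.tail else a

theorem poly_trAct {tr : List Bool → List Bool} (htr : Poly tr) : Poly (trAct tr) := by
  unfold trAct
  fun_prop

theorem trAct_true (tr : List Bool → List Bool) (z : List Bool) :
    trAct tr (true :: z) = true :: z := by simp [trAct]

theorem trAct_false (tr : List Bool → List Bool) (z : List Bool) :
    trAct tr (false :: z) = false :: tr z := by simp [trAct]

theorem trAct_eq_false {tr : List Bool → List Bool} {a q : List Bool}
    (h : trAct tr a = false :: q) : ∃ r, a = false :: r ∧ q = tr r := by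
  rcases a with _ | ⟨c, a⟩
  · simp [trAct] at h
  · cases c with
    | true => rw [trAct_true] at h; simp at h
    | false =>
      rw [trAct_false] at h
      exact ⟨a, rfl, by simpa using h.symm⟩

/-- translation of the questions -/
theorem pspace_translate {A B : Oracle} {tr : List Bool → List Bool} (htr : Poly tr)
    (h : ∀ q, B q = A (tr q)) {L : Set (List Bool)} (hL : IsPSPACE B L) : IsPSPACE A L := by
  obtain ⟨M, p, hM⟩ := hL
  have hp : Poly (fun y => trAct tr (M.act y)) :=
    (poly_trAct htr).comp (poly_of_polyTime M.act_poly)
  let N : SAlg := ⟨fun y => trAct tr (M.act y), polyTime_of_poly_list hp, M.next, M.next_poly⟩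
  refine ⟨N, p, fun x => ?_⟩
  have hR : ∀ s, N.Reach A x s ↔ M.Reach B x s := by
    intro s
    constructor
    · intro h1
      induction h1 with
      | start => exact SAlg.Reach.start
      | @step s q _ h2 ih =>
        obtain ⟨r, h3, h4⟩ := trAct_eq_false h2
        have h5 := SAlg.Reach.step ih h3
        rw [h, ← h4] at h5
        exact h5
    · intro h1
      induction h1 with
      | start => exact SAlg.Reach.start
      | @step s q _ h2 ih =>
        have h3 : N.act (pairBits x s) = false :: tr q := by
          show trAct tr (M.act (pairBits x s)) = _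
          rw [h2, trAct_false]
        have h5 := SAlg.Reach.step ih h3
        rw [← h] at h5
        exact h5
  obtain ⟨h1, s, z, h2, h3, h4⟩ := hM x
  refine ⟨fun s hs => h1 s ((hR s).1 hs), s, z, (hR s).2 h2, ?_, h4⟩
  show trAct tr (M.act (pairBits x s)) = _
  rw [h3, trAct_true]

theorem parL_pspace (A : Oracle) : IsPSPACE A (parL A) := by
  have h1 := parLang_pspace (fun q => A (sh q))
  have h2 : parLang (fun q => A (sh q)) = parL A := by
    ext x
    unfold parLang parL parA
    simp only [Set.mem_ofPred_eq]
    have h3 : ∀ j, sh (x ++ bitsOf x.length j) = bitsOf x.length j := by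
      intro j
      unfold sh
      rw [List.length_append, length_bitsOf]
      have : (x.length + x.length) / 2 = x.length := by omega
      rw [this, List.drop_left]
    simp only [h3]
  rw [h2] at h1
  exact pspace_translate poly_sh (fun q => rfl) h1

theorem par_lvl (N n : ℕ) (hN : 2 ^ (n + 1) ≤ N) (A : Oracle) :
    par (lvl N n) (pre N A) = true ↔ parA A n := by
  have hlt : ∀ j, idx (bitsOf n j) < N := by
    intro j
    have h1 := idx_lt (bitsOf n j)
    rw [length_bitsOf] at h1
    omega
  unfold par parA
  rw [decide_eq_true_eq]
  have h : ((lvl N n).filter (fun i => pre N A i = true)).card =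
      ((Finset.range (2 ^ n)).filter (fun j => A (bitsOf n j) = true)).card := by
    symm
    refine Finset.card_bij (fun j _ => ⟨idx (bitsOf n j), hlt j⟩) ?_ ?_ ?_
    · intro j hj
      rw [Finset.mem_filter, Finset.mem_range] at hj
      rw [Finset.mem_filter, lvl, Finset.mem_filter]
      refine ⟨⟨Finset.mem_univ _, ?_⟩, ?_⟩
      · show (str (idx (bitsOf n j))).length = n
        rw [str_idx, length_bitsOf]
      · show A (str (idx (bitsOf n j))) = true
        rw [str_idx]
        exact hj.2
    · intro j hj j' hj' h
      rw [Finset.mem_filter, Finset.mem_range] at hj hj'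
      have h1 : idx (bitsOf n j) = idx (bitsOf n j') := by simpa using h
      have h2 : bitsOf n j = bitsOf n j' := by rw [← str_idx (bitsOf n j), h1, str_idx]
      exact bitsOf_inj hj.1 hj'.1 h2
    · intro i hi
      rw [Finset.mem_filter, lvl, Finset.mem_filter] at hi
      obtain ⟨j, hj, hji⟩ := exists_bitsOf (str i)
      rw [hi.1.2] at hj hji
      refine ⟨j, ?_, ?_⟩
      · rw [Finset.mem_filter, Finset.mem_range, hji]
        exact ⟨hj, hi.2⟩
      · apply Fin.ext
        show idx (bitsOf n j) = i
        rw [hji, idx_str]
  rw [h]

end Pool.Agent.W911.IB
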