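import Pool.Agent.W911.IB.Par

/-!
# Relative to an oracle with many undecided independent bits, parity is not in the hierarchy
-/

set_option autoImplicit false

namespace Pool.Agent.W911.IB

open Finset MeasureTheory Pool.Agent.NPC H568R2 Pool.Agent.H676 Pool.Agent.H620R2.Gauge

/-- the string of `n` zeros -/
def zs (n : ℕ) : List Bool := List.replicate n false

/-- the oracles for which the hierarchy algorithm is right for the length `n` -/
def CC (M : Alg) (p : Polynomial ℕ) (k n : ℕ) : Set Oracle :=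
  {A | Quant (p.eval n) (fun y => (M.out A y).getD []) k true (zs n) ↔ parA A n}

theorem quant_congr {m : ℕ} {V V' : List Bool → List Bool} (ℓ : ℕ)
    (hV : ∀ y : List Bool, y.length ≤ ℓ → (V y = [true] ↔ V' y = [true])) :
    ∀ (k : ℕ) (b : Bool) (y : List Bool), y.length + k * (2 * m + 1) ≤ ℓ →
      (Quant m V k b y ↔ Quant m V' k b y) := by
  intro k
  induction k with
  | zero =>
    intro b y hy
    simp only [Quant]
    exact hV y (by omega)
  | succ k ih =>
    intro b y hy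
    have hlen : ∀ w : List Bool, w.length ≤ m → (pairBits w y).length + k * (2 * m + 1) ≤ ℓ := by
      intro w hw
      rw [length_pairBits]
      have : (k + 1) * (2 * m + 1) = k * (2 * m + 1) + (2 * m + 1) := by ring
      omega
    cases b with
    | true =>
      simp only [Quant]
      exact exists_congr fun w => and_congr_right fun hw => ih false _ (hlen w hw)
    | false =>
      simp only [Quant]
      exact forall_congr' fun w => forall_congr' fun hw => ih true _ (hlen w hw)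

/-- the length of the strings that occur -/
noncomputable def Lp (p : Polynomial ℕ) (k : ℕ) : Polynomial ℕ :=
  Polynomial.X + Polynomial.C k * (2 * p + 1)

theorem eval_Lp (p : Polynomial ℕ) (k n : ℕ) : (Lp p k).eval n = n + k * (2 * p.eval n + 1) := by
  simp [Lp]

theorem cc_local (M : Alg) (p : Polynomial ℕ) (k : ℕ) : ∃ Q : Polynomial ℕ, ∀ n,
    n ≤ Q.eval n ∧ LocalAt (Q.eval n) (CC M p k n) := by
  obtain ⟨qb, hqb⟩ := Alg.out_local M
  refine ⟨qb.comp (Lp p k) + Polynomial.X, fun n => ?_⟩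
  have hQ : (qb.comp (Lp p k) + Polynomial.X).eval n = qb.eval ((Lp p k).eval n) + n := by
    simp [Polynomial.eval_comp]
  refine ⟨by omega, ?_⟩
  rw [hQ]
  intro A A' hA
  have h1 : parA A n ↔ parA A' n := by
    unfold parA
    have : ∀ j, A (bitsOf n j) = A' (bitsOf n j) := fun j =>
      hA _ (by rw [length_bitsOf]; omega)
    simp only [this]
  have h2 : Quant (p.eval n) (fun y => (M.out A y).getD []) k true (zs n) ↔
      Quant (p.eval n) (fun y => (M.out A' y).getD []) k true (zs n) := by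
    refine quant_congr ((Lp p k).eval n) (fun y hy => ?_) k true _ ?_
    · obtain ⟨Q, _, hQl, hQA⟩ := hqb A y
      have h3 : M.out A' y = M.out A y := by
        apply hQA
        intro q hq
        refine (hA q ?_).symm
        have h4 := (hQl q hq).trans (eval_mono _ hy)
        omega
      rw [h3]
    · rw [eval_Lp]
      simp [zs]
  show (_ ↔ _) ↔ (_ ↔ _)
  rw [h1, h2]

theorem pre_orc (N : ℕ) (a : Fin N → Bool) : pre N (orc N a) = a := by
  funext i
  unfold pre orc
  simp only [idx_str, i.2, dif_pos]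

theorem cc_qf (M : Alg) (p : Polynomial ℕ) (k : ℕ) {N n : ℕ} (hN : 2 ^ (n + 1) ≤ N)
    (a : Fin N → Bool) : orc N a ∈ CC M p k n ↔
      QF (p.eval n) (leaf M N) k true (zs n) a = par (lvl N n) a := by
  have h1 := par_lvl N n hN (orc N a)
  rw [pre_orc] at h1
  have h2 := quant_iff (N := N) (m := p.eval n) (A := orc N a) (M := M)
    (V := fun y => (M.out (orc N a) y).getD []) ((Lp p k).eval n) (by
      intro y _
      rw [pre_orc]
      unfold leaf
      rw [decide_eq_true_eq]
      cases M.out (orc N a) y <;> simp) k true (zs n) (by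
      rw [eval_Lp]
      simp [zs])
  rw [pre_orc] at h2
  unfold CC
  rw [Set.mem_ofPred_eq, h2, ← h1]
  exact Bool.eq_iff_iff.symm

/-- the depth of the decision trees -/
noncomputable def Tp (M : Alg) (p : Polynomial ℕ) (k : ℕ) : Polynomial ℕ :=
  M.p.comp (Lp p k) + Lp p k + Polynomial.C (k + 5)

theorem eval_Tp (M : Alg) (p : Polynomial ℕ) (k n : ℕ) : (Tp M p k).eval n =
    M.p.eval ((Lp p k).eval n) + (Lp p k).eval n + (k + 5) := by
  simp [Tp, Polynomial.eval_comp]

/-- the number of undecided bits that suffices -/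
noncomputable def Pp (M : Alg) (p : Polynomial ℕ) (k : ℕ) : Polynomial ℕ :=
  (24 * Tp M p k) ^ k * (Tp M p k + 3)

theorem eval_Pp (M : Alg) (p : Polynomial ℕ) (k n : ℕ) : (Pp M p k).eval n =
    (24 * (Tp M p k).eval n) ^ k * ((Tp M p k).eval n + 3) := by
  simp [Pp]

open Classical in
theorem cc_bound (M : Alg) (p : Polynomial ℕ) (k : ℕ) {N n : ℕ} (hN : 2 ^ (n + 1) ≤ N)
    {β : Fin N → Bool → ℝ} (hβ0 : ∀ i b, 0 ≤ β i b) (hβ : ∀ i, ∑ b, β i b = 1)
    (hm : (((Pp M p k).eval n : ℕ) : ℝ) ≤ ∑ i ∈ lvl N n, dl β i) :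
    Ew β (fun a => if orc N a ∈ CC M p k n then (1 : ℝ) else 0) ≤ 3 / 4 := by
  set t : ℕ := (Tp M p k).eval n with ht
  have hT := eval_Tp M p k n
  rw [← ht] at hT
  have ht5 : k + 5 ≤ t := by omega
  have ht1 : 1 ≤ t := by omega
  have htR : (1 : ℝ) ≤ (t : ℝ) := by exact_mod_cast ht1
  set q : ℝ := 1 / (24 * t) with hq
  have hq0 : 0 ≤ q := by positivity
  have hq1 : q ≤ 1 / 3 := by
    rw [hq, div_le_div_iff₀ (by positivity) (by norm_num)]
    linarith
  have h1 := level_bound hβ0 hβ (lvl N n) ht1 hq0 hq1 (p.eval n) (leaf M N) k n (by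
    intro y hy
    rw [← eval_Lp] at hy
    refine (dtr_out M N y).mono ?_
    have := eval_mono M.p hy
    omega) (zs n) (by simp [zs])
  simp only [cc_qf M p k hN]
  refine h1.trans ?_
  rw [← eval_Lp]
  have e1 : 12 * (t : ℝ) * q = 1 / 2 := by
    rw [hq]; field_simp; norm_num
  have e2 : (k : ℝ) * 2 ^ ((Lp p k).eval n + 2) * (12 * t * q) ^ (t + 1) ≤ 1 / 16 := by
    rw [e1]
    have h2 : (1 / 2 : ℝ) ^ (t + 1) ≤ (1 / 2) ^ ((Lp p k).eval n + 2 + k + 4) :=
      pow_le_pow_of_le_one (by norm_num) (by norm_num) (by omega)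
    have h3 : (k : ℝ) * (1 / 2) ^ k ≤ 1 := by
      have h4 : (k : ℝ) ≤ 2 ^ k := by exact_mod_cast (Nat.lt_two_pow_self (n := k)).le
      rw [one_div, inv_pow]
      rw [← div_eq_mul_inv, div_le_one (by positivity)]
      exact h4
    calc (k : ℝ) * 2 ^ ((Lp p k).eval n + 2) * (1 / 2) ^ (t + 1)
        ≤ (k : ℝ) * 2 ^ ((Lp p k).eval n + 2) * (1 / 2) ^ ((Lp p k).eval n + 2 + k + 4) :=
          mul_le_mul_of_nonneg_left h2 (by positivity)
      _ = ((k : ℝ) * (1 / 2) ^ k) * ((2 * (1 / 2)) ^ ((Lp p k).eval n + 2) * (1 / 2) ^ 4) := by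
          rw [mul_pow, pow_add (1 / 2 : ℝ) ((Lp p k).eval n + 2 + k) 4,
            pow_add (1 / 2 : ℝ) ((Lp p k).eval n + 2) k]
          ring
      _ ≤ 1 * ((2 * (1 / 2)) ^ ((Lp p k).eval n + 2) * (1 / 2) ^ 4) :=
          mul_le_mul_of_nonneg_right h3 (by positivity)
      _ = 1 / 16 := by norm_num
  have e3 : (t : ℝ) + 3 ≤ q ^ k * ∑ i ∈ lvl N n, dl β i := by
    have h5 : (q ^ k) * ((24 * (t : ℝ)) ^ k) = 1 := by
      rw [← mul_pow, hq, one_div, inv_mul_cancel₀ (by positivity), one_pow]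
    have h6 : (((Pp M p k).eval n : ℕ) : ℝ) = (24 * (t : ℝ)) ^ k * (t + 3) := by
      rw [eval_Pp, ← ht]
      push_cast
      ring
    rw [h6] at hm
    calc (t : ℝ) + 3 = (q ^ k * (24 * (t : ℝ)) ^ k) * (t + 3) := by rw [h5, one_mul]
      _ = q ^ k * ((24 * (t : ℝ)) ^ k * (t + 3)) := by ring
      _ ≤ _ := mul_le_mul_of_nonneg_left hm (by positivity)
  have e4 : 2 ^ t * Real.exp (-(q ^ k * ∑ i ∈ lvl N n, dl β i)) ≤ 1 / 16 := by
    have h7 : Real.exp (-(q ^ k * ∑ i ∈ lvl N n, dl β i)) ≤ Real.exp (-((t : ℝ) + 3)) :=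
      Real.exp_le_exp.2 (by linarith)
    have h8 : (2 : ℝ) ≤ Real.exp 1 := by
      have := Real.add_one_le_exp (1 : ℝ)
      linarith
    have h9 : (2 : ℝ) ^ t ≤ Real.exp t := by
      have := pow_le_pow_left₀ (by norm_num) h8 t
      rw [← Real.exp_nat_mul, mul_one] at this
      exact this
    have h10 : (16 : ℝ) ≤ Real.exp 3 := by
      have h11 := Real.exp_one_gt_d9
      have h12 : Real.exp 3 = Real.exp 1 ^ 3 := by
        rw [← Real.exp_nat_mul]; norm_num
      rw [h12]
      have h13 : (2.7 : ℝ) ≤ Real.exp 1 := by linarith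
      have := pow_le_pow_left₀ (by norm_num) h13 3
      norm_num at this
      linarith
    calc 2 ^ t * Real.exp (-(q ^ k * ∑ i ∈ lvl N n, dl β i))
        ≤ Real.exp t * Real.exp (-((t : ℝ) + 3)) :=
          mul_le_mul h9 h7 (Real.exp_pos _).le (Real.exp_pos _).le
      _ = Real.exp (-3) := by rw [← Real.exp_add]; congr 1; ring
      _ = 1 / Real.exp 3 := by rw [Real.exp_neg, one_div]
      _ ≤ 1 / 16 := one_div_le_one_div_of_le (by norm_num) h10
  linarith

/-- the expected number of deviations from the more probable answers at length `n` -/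
noncomputable def dev (p : List Bool → unitInterval) (n : ℕ) : ℝ :=
  ∑ v : Fin n → Bool, min (p (List.ofFn v) : ℝ) (1 - (p (List.ofFn v) : ℝ))

theorem dev_lvl (p : List Bool → unitInterval) {N n : ℕ} (hN : 2 ^ (n + 1) ≤ N) :
    ∑ i ∈ lvl N n, dl (bt p N) i = dev p n := by
  unfold dev
  rw [← lvl_sum N n hN (fun w => min (p w : ℝ) (1 - (p w : ℝ)))]
  rfl

theorem dev_le (p : List Bool → unitInterval) (n : ℕ) : dev p n ≤ 2 ^ n := by
  unfold dev
  have h : ∀ v ∈ (univ : Finset (Fin n → Bool)),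
      min (p (List.ofFn v) : ℝ) (1 - (p (List.ofFn v) : ℝ)) ≤ 1 := by
    intro v _
    exact (min_le_left _ _).trans (p (List.ofFn v)).2.2
  refine (Finset.sum_le_sum h).trans ?_
  simp

theorem chain_step (q : List Bool → unitInterval) (M : Alg) (p : Polynomial ℕ) (k : ℕ)
    {G : Set Oracle} {n₀ n : ℕ} (hG : LocalAt n₀ G) (hn : n₀ < n)
    (hm : (((Pp M p k).eval n : ℕ) : ℝ) ≤ dev q n) :
    law q (G ∩ CC M p k n) ≤ ENNReal.ofReal (3 / 4) * law q G := by
  classical
  obtain ⟨Q, hQ⟩ := cc_local M p k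
  obtain ⟨hQn, hQl⟩ := hQ n
  set N := 2 ^ (Q.eval n + 1) with hN
  have hN1 : 2 ^ (n + 1) ≤ N := Nat.pow_le_pow_right (by norm_num) (by omega)
  have hN0 : 2 ^ (n₀ + 1) ≤ N := Nat.pow_le_pow_right (by norm_num) (by omega)
  have hGC : LocalAt (Q.eval n) (G ∩ CC M p k n) := by
    intro A A' hA
    rw [Set.mem_inter_iff, Set.mem_inter_iff, hQl A A' hA,
      hG A A' (fun w hw => hA w (by omega))]
  rw [law_of_local q le_rfl hGC, law_of_local q hN0 hG,
    ← ENNReal.ofReal_mul (by norm_num)]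
  apply ENNReal.ofReal_le_ofReal
  have hch := Ew_chain (bt_nonneg q N) (bt_sum q N) (lvl N n) (fun a => orc N a ∈ G)
    (fun a => orc N a ∈ CC M p k n) ?_ (3 / 4) ?_
  · refine le_trans (le_of_eq ?_) hch
    rw [hN]
    congr 1
    funext a
    simp only [Set.mem_inter_iff]
  · intro a b hab
    apply hG
    intro w hw
    unfold orc
    split_ifs with h
    · apply hab
      rw [lvl, Finset.mem_filter, not_and]
      intro _
      show ¬ (str (idx w)).length = n
      rw [str_idx]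
      omega
    · rfl
  · intro b
    refine cc_bound M p k hN1 (fun i c => ?_) (fun i => ?_) ?_
    · unfold cond
      split_ifs
      · exact bt_nonneg q N i c
      · norm_num
      · norm_num
    · unfold cond
      by_cases hi : i ∈ lvl N n
      · simp only [hi, if_true]
        exact bt_sum q N i
      · simp only [hi, if_false, Fintype.sum_bool]
        cases b i <;> simp
    · have h1 : ∑ i ∈ lvl N n, dl (cond (bt q N) (lvl N n) b) i =
          ∑ i ∈ lvl N n, dl (bt q N) i := by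
        refine Finset.sum_congr rfl fun i hi => ?_
        unfold dl cond
        simp only [hi, if_true]
      rw [h1, dev_lvl q hN1]
      exact hm

/-- infinitely many good lengths -/
theorem exists_large {q : List Bool → unitInterval}
    (hq : ¬ ∃ P : Polynomial ℕ, ∀ n, dev q n ≤ ((P.eval n : ℕ) : ℝ)) (P : Polynomial ℕ) (n₀ : ℕ) :
    ∃ n, n₀ < n ∧ ((P.eval n : ℕ) : ℝ) ≤ dev q n := by
  push Not at hq
  obtain ⟨n, hn⟩ := hq (P + Polynomial.C (2 ^ n₀))
  rw [Polynomial.eval_add, Polynomial.eval_C] at hn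
  push_cast at hn
  refine ⟨n, ?_, by have : (0 : ℝ) < 2 ^ n₀ := by positivity
                    linarith⟩
  by_contra hcon
  have h1 := dev_le q n
  have h2 : (2 : ℝ) ^ n ≤ 2 ^ n₀ := pow_le_pow_right₀ (by norm_num) (not_lt.1 hcon)
  have h3 : (0 : ℝ) ≤ ((P.eval n : ℕ) : ℝ) := Nat.cast_nonneg _
  linarith

theorem cc_null (q : List Bool → unitInterval)
    (hq : ¬ ∃ P : Polynomial ℕ, ∀ n, dev q n ≤ ((P.eval n : ℕ) : ℝ)) (M : Alg) (p : Polynomial ℕ)
    (k : ℕ) : law q {A | ∀ n, A ∈ CC M p k n} = 0 := by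
  have h : ∀ j : ℕ, ∃ (G : Set Oracle) (n₀ : ℕ), LocalAt n₀ G ∧
      {A | ∀ n, A ∈ CC M p k n} ⊆ G ∧ law q G ≤ ENNReal.ofReal (3 / 4) ^ j := by
    intro j
    induction j with
    | zero =>
      refine ⟨Set.univ, 0, fun A A' _ => Iff.rfl, Set.subset_univ _, ?_⟩
      rw [pow_zero]
      exact prob_le_one
    | succ j ih =>
      obtain ⟨G, n₀, h1, h2, h3⟩ := ih
      obtain ⟨n, hn, hm⟩ := exists_large hq (Pp M p k) n₀
      obtain ⟨Q, hQ⟩ := cc_local M p k
      obtain ⟨hQn, hQl⟩ := hQ n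
      refine ⟨G ∩ CC M p k n, Q.eval n, ?_, ?_, ?_⟩
      · intro A A' hA
        rw [Set.mem_inter_iff, Set.mem_inter_iff, hQl A A' hA,
          h1 A A' (fun w hw => hA w (by omega))]
      · intro A hA
        exact ⟨h2 hA, hA n⟩
      · refine (chain_step q M p k h1 hn hm).trans ?_
        rw [pow_succ, mul_comm]
        exact mul_le_mul_left h3 _
  have h0 : Filter.Tendsto (fun j : ℕ => ENNReal.ofReal (3 / 4) ^ j) Filter.atTop
      (nhds 0) := by
    apply ENNReal.tendsto_pow_atTop_nhds_zero_of_lt_one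
    rw [ENNReal.ofReal_lt_one]
    norm_num
  refine le_antisymm (ge_of_tendsto' h0 fun j => ?_) zero_le
  obtain ⟨G, n₀, _, h2, h3⟩ := h j
  exact (measure_mono h2).trans h3

/-- Relative to almost every oracle, the parity language is not in the hierarchy. -/
theorem parL_not_ph (q : List Bool → unitInterval)
    (hq : ¬ ∃ P : Polynomial ℕ, ∀ n, dev q n ≤ ((P.eval n : ℕ) : ℝ)) :
    ∀ᵐ A ∂(law q), ¬ IsPH A (parL A) := by
  have h1 : ∀ᵐ A ∂(law q), ∀ θ : Par, ¬ ∀ n, A ∈ CC θ.M θ.p θ.k n := by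
    rw [ae_all_iff]
    intro θ
    have := cc_null q hq θ.M θ.p θ.k
    rw [ae_iff]
    simpa using this
  filter_upwards [h1] with A hA
  rintro ⟨V, p, k, ⟨M, hM⟩, hL⟩
  apply hA ⟨M, p, k, 0⟩
  intro n
  have h2 : (fun y => (M.out A y).getD []) = V := by
    funext y
    rw [hM y]
    rfl
  show Quant (p.eval n) (fun y => (M.out A y).getD []) k true (zs n) ↔ parA A n
  rw [h2]
  have h3 := hL (zs n)
  have h4 : (zs n).length = n := by simp [zs]
  rw [h4] at h3
  rw [← h3]
  show parA A (zs n).length ↔ _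
  rw [h4]

end Pool.Agent.W911.IB
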