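import Pool.Agent.W911.IB.Trb

/-!
# The deviations from the more probable answers
-/

set_option autoImplicit false

namespace Pool.Agent.W911.IB

open MeasureTheory Filter
open Pool.Agent.NPC
open Pool.Agent.H620R2.Gauge (Oracle Quant IsFP IsPH Alg SAlg IsPSPACE W_strs W_mem_strs
  W_length_of_mem W_card_strs)

/-- The oracle with the more probable answers. -/
noncomputable def modeO (p : List Bool → unitInterval) : Oracle :=
  fun w => decide (1 / 2 < (p w : ℝ))

theorem law_eq (p : List Bool → unitInterval) (w : List Bool) (b : Bool) :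
    law p {A | A w = b} = coin (p w) {b} := by
  have h1 : {A : Oracle | A w = b} =
      Set.pi (({w} : Finset (List Bool)) : Set (List Bool)) (fun _ => ({b} : Set Bool)) := by
    ext A
    simp
  rw [h1]
  have h2 : law p (Set.pi (({w} : Finset (List Bool)) : Set (List Bool))
      (fun _ => ({b} : Set Bool))) = ∏ y ∈ ({w} : Finset (List Bool)), coin (p y) {b} :=
    Measure.infinitePi_pi (fun w : List Bool => coin (p w)) (s := {w}) (t := fun _ => {b})
      (fun i _ => MeasurableSet.singleton _)
  rw [h2, Finset.prod_singleton]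

theorem law_ne (p : List Bool → unitInterval) (w : List Bool) :
    law p {A | A w ≠ modeO p w} = ENNReal.ofReal (min (p w : ℝ) (1 - (p w : ℝ))) := by
  have h1 : {A : Oracle | A w ≠ modeO p w} = {A | A w = !(modeO p w)} := by
    ext A
    simp only [Set.mem_ofPred_eq]
    cases A w <;> cases modeO p w <;> simp
  rw [h1, law_eq, coin_singleton]
  congr 1
  unfold modeO
  by_cases h : 1 / 2 < (p w : ℝ)
  · simp only [h, decide_true, Bool.not_true, Bool.false_eq_true, if_false]
    rw [min_eq_right (by linarith)]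
  · simp only [h, decide_false, Bool.not_false, if_true]
    rw [min_eq_left (by linarith)]

open Classical in
/-- the number of deviations at length `n` -/
noncomputable def nd (A B : Oracle) (n : ℕ) : ℕ :=
  (Finset.univ.filter (fun v : Fin n → Bool => A (List.ofFn v) ≠ B (List.ofFn v))).card

theorem measurableSet_ne (B : Oracle) (w : List Bool) : MeasurableSet {A : Oracle | A w ≠ B w} := by
  have h : Measurable (fun A : Oracle => A w) := measurable_pi_apply w
  exact (h (MeasurableSet.singleton (B w))).compl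

theorem nd_ind (A B : Oracle) (n : ℕ) : (nd A B n : ENNReal) = ∑ v : Fin n → Bool,
    Set.indicator {A : Oracle | A (List.ofFn v) ≠ B (List.ofFn v)} 1 A := by
  classical
  unfold nd
  rw [Finset.card_filter]
  push_cast
  refine Finset.sum_congr rfl fun v _ => ?_
  rw [Set.indicator_apply]
  simp only [Set.mem_ofPred_eq, Pi.one_apply]

theorem lintegral_nd (p : List Bool → unitInterval) (n : ℕ) :
    ∫⁻ A, (nd A (modeO p) n : ENNReal) ∂(law p) = ENNReal.ofReal (dev p n) := by
  have h1 := fun A => nd_ind A (modeO p) n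
  simp only [h1]
  rw [lintegral_finsetSum _ (fun v _ =>
    (measurable_one.indicator (measurableSet_ne _ _)))]
  unfold dev
  rw [ENNReal.ofReal_sum_of_nonneg (fun v _ =>
    le_min (p (List.ofFn v)).2.1 (by linarith [(p (List.ofFn v)).2.2]))]
  refine Finset.sum_congr rfl fun v _ => ?_
  rw [lintegral_indicator_one (measurableSet_ne _ _), law_ne]

theorem markov (p : List Bool → unitInterval) (n K : ℕ) (hK : K ≠ 0) :
    law p {A | K ≤ nd A (modeO p) n} ≤ ENNReal.ofReal (dev p n / K) := by
  have h1 := meas_ge_le_lintegral_div (μ := law p)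
    (f := fun A => (nd A (modeO p) n : ENNReal)) (ε := (K : ENNReal)) ?_
    (by exact_mod_cast hK) (ENNReal.natCast_ne_top K)
  · rw [lintegral_nd] at h1
    have h2 : {A : Oracle | (K : ENNReal) ≤ (nd A (modeO p) n : ENNReal)} =
        {A | K ≤ nd A (modeO p) n} := by
      ext A
      simp
    rw [h2] at h1
    refine h1.trans (le_of_eq ?_)
    rw [ENNReal.ofReal_div_of_pos (by positivity), ENNReal.ofReal_natCast]
  · have h3 := fun A => nd_ind A (modeO p) n
    simp only [h3]
    exact (Finset.measurable_sum _ fun v _ =>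
      (measurable_one.indicator (measurableSet_ne _ _))).aemeasurable

theorem nd_le (A B : Oracle) (n : ℕ) : nd A B n ≤ 2 ^ n := by
  unfold nd
  refine (Finset.card_le_univ _).trans ?_
  simp

theorem dif_card (A B : Oracle) (n : ℕ) :
    (Dif A B n).card ≤ ∑ j ∈ Finset.range (n + 1), nd A B j := by
  classical
  have h1 : Dif A B n ⊆ (Finset.range (n + 1)).biUnion (fun j =>
      (Finset.univ.filter (fun v : Fin j → Bool => A (List.ofFn v) ≠ B (List.ofFn v))).image
        List.ofFn) := by
    intro w hw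
    unfold Dif at hw
    rw [Finset.mem_filter] at hw
    have h2 := W_length_of_mem hw.1
    rw [Finset.mem_biUnion]
    refine ⟨w.length, Finset.mem_range.2 (by omega), ?_⟩
    rw [Finset.mem_image]
    refine ⟨fun i => w.get i, ?_, List.ofFn_get w⟩
    rw [Finset.mem_filter, List.ofFn_get]
    exact ⟨Finset.mem_univ _, hw.2⟩
  refine (Finset.card_le_card h1).trans (Finset.card_biUnion_le.trans ?_)
  exact Finset.sum_le_sum fun j _ => Finset.card_image_le

/-- If the expected number of deviations is polynomially bounded, the set of the deviations is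
sparse almost surely. -/
theorem few_ae (p : List Bool → unitInterval) (P : Polynomial ℕ)
    (hP : ∀ n, dev p n ≤ ((P.eval n : ℕ) : ℝ)) : ∀ᵐ A ∂(law p), Few A (modeO p) := by
  have h1 : ∀ n : ℕ, law p {A | (n + 1) ^ 2 * (P.eval n + 1) ≤ nd A (modeO p) n} ≤
      ENNReal.ofReal (1 / ((n : ℝ) + 1) ^ 2) := by
    intro n
    refine (markov p n _ (by positivity)).trans (ENNReal.ofReal_le_ofReal ?_)
    have h2 := hP n
    rw [div_le_div_iff₀ (by positivity) (by positivity)]
    push_cast
    have h3 : (0 : ℝ) ≤ ((n : ℝ) + 1) ^ 2 := by positivity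
    nlinarith
  have h2 : Summable (fun n : ℕ => 1 / ((n : ℝ) + 1) ^ 2) := by
    have h3 : Summable (fun n : ℕ => 1 / (n : ℝ) ^ 2) :=
      Real.summable_one_div_nat_pow.2 (by norm_num)
    have h4 := (summable_nat_add_iff 1).2 h3
    refine h4.congr fun n => ?_
    push_cast
    rfl
  have h3 : ∑' n : ℕ, law p {A | (n + 1) ^ 2 * (P.eval n + 1) ≤ nd A (modeO p) n} ≠ ⊤ :=
    ne_top_of_le_ne_top h2.tsum_ofReal_ne_top (ENNReal.tsum_le_tsum h1)
  filter_upwards [ae_eventually_notMem h3] with A hA
  obtain ⟨n₀, hn₀⟩ := eventually_atTop.1 hA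
  have h4 : ∀ n, nd A (modeO p) n ≤ (n + 1) ^ 2 * (P.eval n + 1) + 2 ^ n₀ := by
    intro n
    by_cases h : n₀ ≤ n
    · have h5 := hn₀ n h
      simp only [Set.mem_ofPred_eq, not_le] at h5
      have h6 : 0 < 2 ^ n₀ := by positivity
      omega
    · have h5 := nd_le A (modeO p) n
      have h6 : 2 ^ n ≤ 2 ^ n₀ := Nat.pow_le_pow_right (by norm_num) (by omega)
      have h7 : 0 ≤ (n + 1) ^ 2 * (P.eval n + 1) := Nat.zero_le _
      omega
  refine ⟨(Polynomial.X + 1) * ((Polynomial.X + 1) ^ 2 * (P + 1) + Polynomial.C (2 ^ n₀)),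
    fun n => ?_⟩
  have h5 : ((Polynomial.X + 1) * ((Polynomial.X + 1) ^ 2 * (P + 1) +
      Polynomial.C (2 ^ n₀)) : Polynomial ℕ).eval n =
      (n + 1) * ((n + 1) ^ 2 * (P.eval n + 1) + 2 ^ n₀) := by
    simp
  rw [h5]
  refine (dif_card A (modeO p) n).trans ?_
  have h6 : ∀ j ∈ Finset.range (n + 1), nd A (modeO p) j ≤
      (n + 1) ^ 2 * (P.eval n + 1) + 2 ^ n₀ := by
    intro j hj
    rw [Finset.mem_range] at hj
    refine (h4 j).trans ?_
    have h7 : (j + 1) ^ 2 ≤ (n + 1) ^ 2 := Nat.pow_le_pow_left (by omega) 2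
    have h8 : P.eval j ≤ P.eval n := eval_mono P (by omega)
    have h9 := Nat.mul_le_mul h7 (Nat.succ_le_succ h8)
    simp only [Nat.succ_eq_add_one] at h9
    omega
  refine (Finset.sum_le_sum h6).trans (le_of_eq ?_)
  rw [Finset.sum_const, Finset.card_range, smul_eq_mul]

end Pool.Agent.W911.IB
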