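import Pool.Agent.W911.IB.Clo
import Pool.Agent.H620R2.Gauge.U1

/-!
# Iterated steps of an algorithm that works on a memory, with a corrected oracle
-/

set_option autoImplicit false

namespace Pool.Agent.W911.IB

open Pool.Agent.NPC Pool.Agent.H622R2
open Pool.Agent.H620R2.Gauge (Oracle Quant IsFP IsPH Alg SAlg IsPSPACE)
open Pool.Agent.H620R2.Gauge.U1 (cand)

/-- a list of corrections of an oracle -/
abbrev Cor : Type := List (List Bool × Bool)

/-- the string is mentioned in the list -/
def key (H : Cor) (w : List Bool) : Bool := H.any (fun e => decide (e.1 = w))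

/-- the answer given by the list -/
def vl (H : Cor) (w : List Bool) : Bool := H.any (fun e => decide (e.1 = w) && e.2)

/-- the corrected oracle -/
def ovr (O : Oracle) (H : Cor) : Oracle := fun w => if key H w = true then vl H w else O w

/-- the list coded by a string -/
def dH (s : List Bool) : Cor := (unbits Cor s).getD []

theorem dH_bits (H : Cor) : dH (bits H) = H := by
  unfold dH
  rw [unbits_bits]
  rfl

/-- the question asked next -/
def qy (M : SAlg) (x c : List Bool) : List Bool := (M.act (pairBits x c)).tail

/-- the next content of the memory, if the answer is `b`; a content that is too long is not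
written -/
def stb (M : SAlg) (b : Bool) (x : List Bool) (ℓ : ℕ) (c : List Bool) : List Bool :=
  if (M.act (pairBits x c)).head? = some false then
    (if (M.next (pairBits x (b :: c))).length ≤ ℓ then M.next (pairBits x (b :: c)) else c)
  else c

/-- the next content of the memory -/
def stp (M : SAlg) (O : Oracle) (x : List Bool) (ℓ : ℕ) (c : List Bool) : List Bool :=
  stb M (O (qy M x c)) x ℓ c

theorem length_stb (M : SAlg) (b : Bool) (x : List Bool) (ℓ : ℕ) (c : List Bool) :
    (stb M b x ℓ c).length ≤ max c.length ℓ := by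
  unfold stb
  split_ifs with h1 h2
  · exact h2.trans (le_max_right _ _)
  · exact le_max_left _ _
  · exact le_max_left _ _

theorem length_iter (M : SAlg) (O : Oracle) (x : List Bool) (ℓ : ℕ) (c : List Bool) (j : ℕ) :
    ((stp M O x ℓ)^[j] c).length ≤ max c.length ℓ := by
  induction j with
  | zero => exact le_max_left _ _
  | succ j ih =>
    rw [Function.iterate_succ_apply']
    exact (length_stb M _ x ℓ _).trans (max_le ih (le_max_right _ _))

/-- the inputs: `((x, h), (c₁, c₂), t)` -/
abbrev Inp : Type := (List Bool × List Bool) × (List Bool × List Bool) × List Bool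

/-- the input coded by a string -/
def dT (y : List Bool) : Inp := (unbits Inp y).getD (([], []), ([], []), [])

theorem dT_bits (a : Inp) : dT (bits a) = a := by
  unfold dT
  rw [unbits_bits]
  rfl

/-- the language: the algorithm gets from `c₁` to `c₂` in `2 ^ |t|` steps -/
def TL (M : SAlg) (p : Polynomial ℕ) (B : Oracle) : Set (List Bool) :=
  {y | (stp M (ovr B (dH (dT y).1.2)) (dT y).1.1 (p.eval (dT y).1.1.length))^[2 ^
    (dT y).2.2.length] (dT y).2.1.1 = (dT y).2.1.2}

theorem dT_le (y : List Bool) : (dT y).1.1.length ≤ y.length ∧ (dT y).2.1.1.length ≤ y.length ∧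
    (dT y).2.2.length ≤ y.length := by
  unfold dT
  cases h : unbits Inp y with
  | none => simp
  | some a =>
    have h1 := bits_of_unbits h
    obtain ⟨⟨x, g⟩, ⟨c, c'⟩, t⟩ := a
    simp only [Option.getD_some]
    rw [← h1, bits_length]
    simp only [sz_pair]
    have e1 := sz_listBool_ge x
    have e2 := sz_listBool_ge c
    have e3 := sz_listBool_ge t
    omega

/-- the state of the simulation: the number of steps and the content of the memory -/
def sta (y s : List Bool) : ℕ × List Bool :=
  (unbits (ℕ × List Bool) s).getD (0, (dT y).2.1.1)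

theorem sta_nil (y : List Bool) : sta y [] = (0, (dT y).2.1.1) := rfl

theorem sta_bits (y : List Bool) (t : ℕ × List Bool) : sta y (bits t) = t := by
  unfold sta
  rw [unbits_bits]
  rfl

/-- the next action of the simulation -/
def nAct (M : SAlg) (v : List Bool) : List Bool :=
  if (dT (unpair v).1).2.2.length < (sta (unpair v).1 (unpair v).2).1.bits.length then
    [true, decide ((sta (unpair v).1 (unpair v).2).2 = (dT (unpair v).1).2.1.2)]
  else false :: qy M (dT (unpair v).1).1.1 (sta (unpair v).1 (unpair v).2).2

/-- the next state of the simulation -/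
def nNext (M : SAlg) (p : Polynomial ℕ) (v : List Bool) : ℕ × List Bool :=
  ((sta (unpair v).1 (unpair v).2.tail).1 + 1,
    stb M (if key (dH (dT (unpair v).1).1.2)
        (qy M (dT (unpair v).1).1.1 (sta (unpair v).1 (unpair v).2.tail).2) = true then
      vl (dH (dT (unpair v).1).1.2)
        (qy M (dT (unpair v).1).1.1 (sta (unpair v).1 (unpair v).2.tail).2)
      else (unpair v).2.head?.getD false) (dT (unpair v).1).1.1
      (p.eval (dT (unpair v).1).1.1.length) (sta (unpair v).1 (unpair v).2.tail).2)

section

attribute [local fun_prop] poly_pairBits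

attribute [local irreducible] unpair

theorem poly_dH : Poly dH := Poly.optGetD poly_unbits (NPC.Poly.const _)

theorem poly_dT : Poly dT := Poly.optGetD poly_unbits (NPC.Poly.const _)

theorem poly_sta : Poly (fun p : List Bool × List Bool => sta p.1 p.2) := by
  have h := poly_dT
  unfold sta
  exact Poly.optGetD (poly_unbits.comp (Poly.snd Poly.id)) (by fun_prop)

theorem poly_qy (M : SAlg) : Poly (fun p : List Bool × List Bool => qy M p.1 p.2) := by
  have h := poly_of_polyTime M.act_poly
  unfold qy
  fun_prop

theorem poly_key : Poly (fun p : Cor × List Bool => key p.1 p.2) := by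
  unfold key
  fun_prop

theorem poly_vl : Poly (fun p : Cor × List Bool => vl p.1 p.2) := by
  unfold vl
  fun_prop

theorem poly_stb (M : SAlg) : Poly (fun p : Bool × List Bool × ℕ × List Bool =>
    stb M p.1 p.2.1 p.2.2.1 p.2.2.2) := by
  have h1 := poly_of_polyTime M.act_poly
  have h2 := poly_of_polyTime M.next_poly
  unfold stb
  fun_prop

theorem poly_nAct (M : SAlg) : Poly (nAct M) := by
  have h1 := poly_dT
  have h2 := poly_sta
  have h3 := poly_qy M
  have h4 := poly_unpair
  have h5 : Poly (fun v : List Bool => sta (unpair v).1 (unpair v).2) :=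
    h2.comp (f := fun v : List Bool => ((unpair v).1, (unpair v).2)) (by fun_prop)
  have h6 : Poly (fun v : List Bool => qy M (dT (unpair v).1).1.1
      (sta (unpair v).1 (unpair v).2).2) :=
    h3.comp (f := fun v : List Bool => ((dT (unpair v).1).1.1,
      (sta (unpair v).1 (unpair v).2).2)) (by fun_prop)
  have h7 : Poly (fun n : ℕ => n.bits) := Poly.natBits Poly.id
  have h8 : Poly (fun v : List Bool => (sta (unpair v).1 (unpair v).2).1.bits.length) :=
    Poly.length (h7.comp (by fun_prop))
  unfold nAct
  fun_prop

theorem poly_nNext (M : SAlg) (p : Polynomial ℕ) : Poly (nNext M p) := by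
  have h1 := poly_dT
  have h2 := poly_sta
  have h3 := poly_qy M
  have h4 := poly_unpair
  have h5 : Poly (fun v : List Bool => sta (unpair v).1 (unpair v).2.tail) :=
    h2.comp (f := fun v : List Bool => ((unpair v).1, (unpair v).2.tail)) (by fun_prop)
  have h6 : Poly (fun v : List Bool => qy M (dT (unpair v).1).1.1
      (sta (unpair v).1 (unpair v).2.tail).2) :=
    h3.comp (f := fun v : List Bool => ((dT (unpair v).1).1.1,
      (sta (unpair v).1 (unpair v).2.tail).2)) (by fun_prop)
  have h7 := poly_dH
  have h8 : Poly (fun v : List Bool => key (dH (dT (unpair v).1).1.2)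
        (qy M (dT (unpair v).1).1.1 (sta (unpair v).1 (unpair v).2.tail).2)) :=
    poly_key.comp (f := fun v : List Bool => (dH (dT (unpair v).1).1.2,
      qy M (dT (unpair v).1).1.1 (sta (unpair v).1 (unpair v).2.tail).2)) (by fun_prop)
  have h9 : Poly (fun v : List Bool => vl (dH (dT (unpair v).1).1.2)
        (qy M (dT (unpair v).1).1.1 (sta (unpair v).1 (unpair v).2.tail).2)) :=
    poly_vl.comp (f := fun v : List Bool => (dH (dT (unpair v).1).1.2,
      qy M (dT (unpair v).1).1.1 (sta (unpair v).1 (unpair v).2.tail).2)) (by fun_prop)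
  have h10 : Poly (fun v : List Bool => p.eval (dT (unpair v).1).1.1.length) :=
    (UPoly.eval (UPoly.length (by fun_prop)) p).toPoly
  have h11 := poly_stb M
  unfold nNext
  refine Poly.pair (by fun_prop) ?_
  exact h11.comp (f := fun v : List Bool => ((if key (dH (dT (unpair v).1).1.2)
        (qy M (dT (unpair v).1).1.1 (sta (unpair v).1 (unpair v).2.tail).2) = true then
      vl (dH (dT (unpair v).1).1.2)
        (qy M (dT (unpair v).1).1.1 (sta (unpair v).1 (unpair v).2.tail).2)
      else (unpair v).2.head?.getD false), (dT (unpair v).1).1.1,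
      p.eval (dT (unpair v).1).1.1.length, (sta (unpair v).1 (unpair v).2.tail).2))
    (by fun_prop)

end

/-- The iterated steps can be simulated in polynomial space. -/
theorem TL_pspace (M : SAlg) (p : Polynomial ℕ) (B : Oracle) : IsPSPACE B (TL M p B) := by
  let N : SAlg := ⟨nAct M, polyTime_of_poly_list (poly_nAct M),
    fun v => bits (nNext M p v), polyTime_bits (poly_nNext M p)⟩
  refine ⟨N, Polynomial.C 4 * (Polynomial.X + Polynomial.C 1) + Polynomial.C 1 +
    (Polynomial.C 4 * (Polynomial.X + p) + Polynomial.C 1) + Polynomial.C 1, fun y => ?_⟩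
  obtain ⟨f, hf⟩ : ∃ f, f = stp M (ovr B (dH (dT y).1.2)) (dT y).1.1
    (p.eval (dT y).1.1.length) := ⟨_, rfl⟩
  have hact : ∀ s, N.act (pairBits y s) =
      if (dT y).2.2.length < (sta y s).1.bits.length then
        [true, decide ((sta y s).2 = (dT y).2.1.2)]
      else false :: qy M (dT y).1.1 (sta y s).2 := by
    intro s
    show nAct M (pairBits y s) = _
    unfold nAct
    rw [unpair_pairBits]
  have hnext : ∀ s, N.next (pairBits y (B (qy M (dT y).1.1 (sta y s).2) :: s)) =
      bits ((sta y s).1 + 1, f (sta y s).2) := by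
    intro s
    show bits (nNext M p (pairBits y _)) = _
    unfold nNext
    rw [unpair_pairBits, hf]
    rfl
  have inv : ∀ s, N.Reach B y s → ∃ j, j ≤ 2 ^ (dT y).2.2.length ∧
      sta y s = (j, f^[j] (dT y).2.1.1) ∧ (s = [] ∨ s = bits (sta y s)) := by
    intro s hs
    induction hs with
    | start => exact ⟨0, Nat.zero_le _, sta_nil y, Or.inl rfl⟩
    | @step s r hs hr ih =>
      obtain ⟨j, h1, h2, h3⟩ := ih
      rw [hact] at hr
      split_ifs at hr with h4
      · simp at hr
      · rw [List.cons.injEq] at hr
        rw [← hr.2, hnext, sta_bits, h2]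
        refine ⟨j + 1, ?_, ?_, Or.inr rfl⟩
        · rw [h2, not_lt, Nat.size_eq_bits_len] at h4
          exact Nat.size_le.1 h4
        · rw [Function.iterate_succ_apply']
  have sim : ∀ j, j ≤ 2 ^ (dT y).2.2.length → ∃ s, N.Reach B y s ∧
      sta y s = (j, f^[j] (dT y).2.1.1) := by
    intro j
    induction j with
    | zero => exact fun _ => ⟨[], SAlg.Reach.start, sta_nil y⟩
    | succ j ih =>
      intro hj
      obtain ⟨s, h1, h2⟩ := ih (by omega)
      have h3 : N.act (pairBits y s) = false :: qy M (dT y).1.1 (sta y s).2 := by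
        rw [hact, if_neg]
        rw [h2, not_lt, Nat.size_eq_bits_len]
        exact Nat.size_le.2 hj
      refine ⟨_, SAlg.Reach.step h1 h3, ?_⟩
      rw [hnext, sta_bits, h2, Function.iterate_succ_apply']
  refine ⟨fun s hs => ?_, ?_⟩
  · obtain ⟨j, h1, h2, h3⟩ := inv s hs
    rcases h3 with h3 | h3
    · rw [h3]
      simp
    · rw [h3, bits_length, h2, sz_pair]
      have e1 := sz_nat_le j
      have e2 := sz_listBool_le (f^[j] (dT y).2.1.1)
      have e3 : (f^[j] (dT y).2.1.1).length ≤ max (dT y).2.1.1.length
          (p.eval (dT y).1.1.length) := by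
        rw [hf]
        exact length_iter _ _ _ _ _ _
      have e4 : j.size ≤ (dT y).2.2.length + 1 := by
        rw [Nat.size_le]
        exact lt_of_le_of_lt h1 (Nat.pow_lt_pow_right (by norm_num) (Nat.lt_succ_self _))
      obtain ⟨e5, e6, e7⟩ := dT_le y
      have e8 := eval_mono p e5
      have e9 : max (dT y).2.1.1.length (p.eval (dT y).1.1.length) ≤ y.length + p.eval y.length :=
        max_le (by omega) (by omega)
      simp only [Polynomial.eval_add, Polynomial.eval_mul, Polynomial.eval_C, Polynomial.eval_X]
      omega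
  · obtain ⟨s, h1, h2⟩ := sim _ le_rfl
    refine ⟨s, [decide ((sta y s).2 = (dT y).2.1.2)], h1, ?_, ?_⟩
    · rw [hact, if_pos]
      rw [h2, Nat.size_eq_bits_len]
      exact Nat.lt_size.2 le_rfl
    · rw [h2]
      show (stp M (ovr B (dH (dT y).1.2)) (dT y).1.1 (p.eval (dT y).1.1.length))^[2 ^
        (dT y).2.2.length] (dT y).2.1.1 = (dT y).2.1.2 ↔ _
      rw [← hf]
      simp

end Pool.Agent.W911.IB
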