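import Pool.Agent.W911.IB.Tra
import Pool.Agent.W911.IB.Pr

/-!
# A collapse of `PSPACE` to the hierarchy is not affected by sparse changes: the proof
-/

set_option autoImplicit false

namespace Pool.Agent.W911.IB

open Pool.Agent.NPC Pool.Agent.H622R2
open Pool.Agent.H490R3.LH.EQAx
open Pool.Agent.H620R2.Gauge (Oracle Quant IsFP IsPH Alg SAlg IsPSPACE W_strs W_mem_strs
  W_length_of_mem W_card_strs)

theorem stp_congr {M : SAlg} {O O' : Oracle} {x : List Bool} {ℓ r : ℕ}
    (hq : ∀ c : List Bool, c.length ≤ ℓ → (qy M x c).length ≤ r)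
    (hO : ∀ w : List Bool, w.length ≤ r → O w = O' w) {c : List Bool} (hc : c.length ≤ ℓ) :
    ∀ j : ℕ, (stp M O x ℓ)^[j] c = (stp M O' x ℓ)^[j] c := by
  intro j
  induction j with
  | zero => rfl
  | succ j ih =>
    rw [Function.iterate_succ_apply', Function.iterate_succ_apply', ih]
    have h1 : ((stp M O' x ℓ)^[j] c).length ≤ ℓ :=
      (length_iter M O' x ℓ c j).trans (max_le hc le_rfl)
    show stb M (O (qy M x _)) x ℓ _ = stb M (O' (qy M x _)) x ℓ _
    rw [hO _ (hq _ h1)]

/-- the claimed answer to the question whether `M` gets from `c₁` to `c₂` in `2 ^ |t|` steps -/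
def GG (N : Alg) (m : Polynomial ℕ) (k : ℕ) (A : Oracle) (h x c₁ c₂ t : List Bool) : Prop :=
  FF N m k A (unpair h).1 (bits (((x, (unpair h).2), (c₁, c₂), t) : Inp))

theorem ph_GG (N : Alg) (m : Polynomial ℕ) (k : ℕ) (A : Oracle) : PHG A (GG N m k A) := by
  intro hh xx cc₁ cc₂ tt h1 h2 h3 h4 h5
  have h6 : Poly (fun z => bits (((xx z, (unpair (hh z)).2), (cc₁ z, cc₂ z), tt z) : Inp)) :=
    poly_of_polyTime (polyTime_bits (Poly.pair (Poly.pair h2 (poly_u2.comp h1))
      (Poly.pair (Poly.pair h3 h4) h5)))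
  refine ((ph_FF N m k A).red (poly_pairBits (poly_u1.comp h1) h6)).congr fun z => ?_
  rw [unpair1, unpair2]
  rfl

/-- If `PSPACE` is contained in the polynomial hierarchy relative to `B`, then also relative to
every oracle that differs from `B` on a sparse set only. -/
theorem collapse_transfer {A B : Oracle} (hd : Few A B)
    (hB : ∀ L, IsPSPACE B L → IsPH B L) {L : Set (List Bool)} (hL : IsPSPACE A L) :
    IsPH A L := by
  obtain ⟨M, p, hM⟩ := hL
  obtain ⟨V, m, k, ⟨N, hN⟩, hV⟩ := hB _ (TL_pspace M p B)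
  obtain ⟨R, hR⟩ := hd
  obtain ⟨qa, hqa⟩ := poly_bound (poly_of_polyTime M.act_poly)
  obtain ⟨qb, hqb⟩ := Pool.Agent.H620R2.Gauge.Alg.out_local N
  -- the polynomials
  obtain ⟨r2, hr2⟩ : ∃ r : Polynomial ℕ, ∀ n, r.eval n = qa.eval (2 * n + 1 + p.eval n) :=
    ⟨qa.comp (2 * Polynomial.X + 1 + p), fun n => by simp [Polynomial.eval_comp]⟩
  obtain ⟨hA, hhA⟩ : ∃ r : Polynomial ℕ, ∀ n, r.eval n =
      R.eval (r2.eval n) * (4 * r2.eval n + 6) + 1 :=
    ⟨R.comp r2 * (4 * r2 + 6) + 1, fun n => by simp [Polynomial.eval_comp]⟩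
  obtain ⟨yb, hyb⟩ : ∃ r : Polynomial ℕ, ∀ n, r.eval n =
      4 * n + 4 * hA.eval n + 12 * p.eval n + 20 :=
    ⟨4 * Polynomial.X + 4 * hA + 12 * p + 20, fun n => by simp⟩
  obtain ⟨Λ, hΛ⟩ : ∃ r : Polynomial ℕ, ∀ n, r.eval n =
      yb.eval n + k * (2 * m.eval (yb.eval n) + 1) :=
    ⟨yb + Polynomial.C k * (2 * m.comp yb + 1), fun n => by simp [Polynomial.eval_comp]⟩
  obtain ⟨r1, hr1⟩ : ∃ r : Polynomial ℕ, ∀ n, r.eval n = qb.eval (Λ.eval n) :=
    ⟨qb.comp Λ, fun n => by simp [Polynomial.eval_comp]⟩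
  obtain ⟨hBp, hhB⟩ : ∃ r : Polynomial ℕ, ∀ n, r.eval n =
      R.eval (r1.eval n) * (4 * r1.eval n + 6) + 1 :=
    ⟨R.comp r1 * (4 * r1 + 6) + 1, fun n => by simp [Polynomial.eval_comp]⟩
  refine core (ph_GG N m k A) hM (2 * hBp + 1 + hA) fun x => ?_
  · 
    obtain ⟨n, hn⟩ : ∃ n, n = x.length := ⟨_, rfl⟩
    obtain ⟨HB, hHB⟩ : ∃ H, H = cor B (Dif A B (r1.eval n)) := ⟨_, rfl⟩
    obtain ⟨HA, hHA⟩ : ∃ H, H = cor A (Dif A B (r2.eval n)) := ⟨_, rfl⟩
    have lA : (bits HA).length ≤ hA.eval n := by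
      rw [hhA, hHA]
      exact length_cor A B A hR _
    have lB : (bits HB).length ≤ hBp.eval n := by
      rw [hhB, hHB]
      exact length_cor A B B hR _
    have hqy : ∀ c : List Bool, c.length ≤ p.eval x.length →
        (qy M x c).length ≤ r2.eval n := by
      intro c hc
      unfold qy
      have h1 := hqa (pairBits x c)
      rw [List.length_tail, hr2]
      have h2 : (pairBits x c).length ≤ 2 * n + 1 + p.eval n := by
        rw [len_pair, hn]
        omega
      have h3 := eval_mono qa h2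
      omega
    have key : ∀ c₁ : List Bool, c₁.length ≤ p.eval x.length → ∀ c₂ : List Bool,
        c₂.length ≤ p.eval x.length → ∀ t : List Bool, t.length ≤ p.eval x.length + 1 →
        (GG N m k A (pairBits (bits HB) (bits HA)) x c₁ c₂ t ↔
          (stp M A x (p.eval x.length))^[2 ^ t.length] c₁ = c₂) := by
      intro c₁ h1 c₂ h2 t ht
      obtain ⟨y, hy⟩ : ∃ y, y = bits (((x, bits HA), (c₁, c₂), t) : Inp) := ⟨_, rfl⟩
      have ly : y.length ≤ yb.eval n := by
        rw [hy, bits_length, hyb]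
        simp only [sz_pair]
        have e1 := sz_listBool_le x
        have e2 := sz_listBool_le (bits HA)
        have e3 := sz_listBool_le c₁
        have e4 := sz_listBool_le c₂
        have e5 := sz_listBool_le t
        rw [← hn] at h1 h2 ht e1
        omega
      have e1 : GG N m k A (pairBits (bits HB) (bits HA)) x c₁ c₂ t ↔
          Quant (m.eval y.length) (fun z => (N.out (ovr A HB) z).getD []) k true y := by
        unfold GG FF
        rw [unpair1, unpair2, dH_bits, ← hy]
      have e2 : Quant (m.eval y.length) (fun z => (N.out (ovr A HB) z).getD []) k true y ↔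
          Quant (m.eval y.length) V k true y := by
        refine quant_congr (Λ.eval n) (fun z hz => ?_) k true y ?_
        · obtain ⟨Q, _, hQl, hQA⟩ := hqb B z
          have h3 : N.out (ovr A HB) z = N.out B z := by
            apply hQA
            intro q hq
            rw [hHB]
            refine (ovr_dif A B (r1.eval n) ?_).2
            rw [hr1]
            exact (hQl q hq).trans (eval_mono _ hz)
          rw [h3, hN z]
          rfl
        · rw [hΛ]
          have h4 := eval_mono m ly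
          have h5 : k * (2 * m.eval y.length + 1) ≤ k * (2 * m.eval (yb.eval n) + 1) :=
            Nat.mul_le_mul_left _ (by omega)
          omega
      have e3 : y ∈ TL M p B ↔
          (stp M (ovr B HA) x (p.eval x.length))^[2 ^ t.length] c₁ = c₂ := by
        unfold TL
        rw [Set.mem_ofPred_eq, hy, dT_bits, dH_bits]
      rw [e1, e2, ← hV y, e3, stp_congr (O' := A) hqy (fun w hw => by
        rw [hHA]
        exact (ovr_dif A B (r2.eval n) hw).1) h1]
    refine ⟨pairBits (bits HB) (bits HA), ?_, key⟩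
    rw [len_pair, ← hn]
    simp only [Polynomial.eval_add, Polynomial.eval_mul, Polynomial.eval_one,
      Polynomial.eval_ofNat]
    omega

end Pool.Agent.W911.IB
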